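import Pool.Agent.W601.VF.Cov4

/-!
Affine curves over the complex numbers (from `Pool/Agent/Y190/PH/Cur.lean`, `Bnd.lean`): the function
field, the places at infinity, and bounded families of regular functions.
-/

set_option autoImplicit false

set_option linter.unusedSectionVars false

open FF Pool.Agent.W603.LV Pool.Agent.W603.PV

namespace Pool.Agent.Q80.HC

theorem one_var {B : Type} [CommRing B] [IsDedekindDomain B] [Algebra ℂ B]
    (hB : ¬ IsField B) {s : ℕ} {g : MvPolynomial (Fin s) ℂ →ₐ[ℂ] B}
    (hg : Function.Injective g) (hint : g.IsIntegral) : s = 1 := by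
  classical
  let : Algebra (MvPolynomial (Fin s) ℂ) B := g.toRingHom.toAlgebra
  have hint' : Algebra.IsIntegral (MvPolynomial (Fin s) ℂ) B := ⟨hint⟩
  have hmap : ∀ p, algebraMap (MvPolynomial (Fin s) ℂ) B p = g p := fun _ => rfl
  by_contra hne
  rcases Nat.lt_or_ge s 1 with h0 | h2
  · obtain rfl : s = 0 := by omega
    apply hB
    have h1 : IsField (MvPolynomial (Fin 0) ℂ) :=
      (MvPolynomial.isEmptyRingEquiv ℂ (Fin 0)).toMulEquiv.isField (Field.toIsField ℂ)
    exact isField_of_isIntegral_of_isField' h1
  · have h2' : 2 ≤ s := by omega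
    let i0 : Fin s := ⟨0, by omega⟩
    let i1 : Fin s := ⟨1, by omega⟩
    have hprime : (Ideal.span {(MvPolynomial.X i0 : MvPolynomial (Fin s) ℂ)}).IsPrime :=
      (Ideal.span_singleton_prime (MvPolynomial.X_ne_zero i0)).2 (MvPolynomial.X_prime)
    obtain ⟨Q, hQp, hQ⟩ := Ideal.exists_ideal_over_prime_of_isIntegral_of_isDomain
      (S := B) (Ideal.span {(MvPolynomial.X i0 : MvPolynomial (Fin s) ℂ)}) (by
        rw [(RingHom.injective_iff_ker_eq_bot _).1 (show Function.Injective
          (algebraMap (MvPolynomial (Fin s) ℂ) B) from hg)]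
        exact bot_le)
    have hQ0 : Q ≠ ⊥ := by
      intro h
      have h3 : (MvPolynomial.X i0 : MvPolynomial (Fin s) ℂ) ∈ Q.comap
          (algebraMap (MvPolynomial (Fin s) ℂ) B) := by
        rw [hQ]
        exact Ideal.mem_span_singleton_self _
      rw [h, Ideal.mem_comap, Ideal.mem_bot, hmap] at h3
      exact MvPolynomial.X_ne_zero i0 (hg (by rw [h3, map_zero]))
    have hQm : Q.IsMaximal := hQp.isMaximal hQ0
    have hPm : (Ideal.span {(MvPolynomial.X i0 : MvPolynomial (Fin s) ℂ)}).IsMaximal := by
      rw [← hQ]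
      exact Ideal.isMaximal_comap_of_isIntegral_of_isMaximal Q
    let ev : MvPolynomial (Fin s) ℂ →ₐ[ℂ] ℂ := MvPolynomial.aeval fun _ => 0
    have hle : Ideal.span {(MvPolynomial.X i0 : MvPolynomial (Fin s) ℂ)} ≤ RingHom.ker ev := by
      rw [Ideal.span_singleton_le_iff_mem, RingHom.mem_ker]
      simp [ev]
    have heq := hPm.eq_of_le (RingHom.ker_ne_top ev) hle
    have h4 : (MvPolynomial.X i1 : MvPolynomial (Fin s) ℂ) ∈
        Ideal.span {(MvPolynomial.X i0 : MvPolynomial (Fin s) ℂ)} := by
      rw [heq, RingHom.mem_ker]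
      simp [ev]
    rw [Ideal.mem_span_singleton, MvPolynomial.X_dvd_X] at h4
    exact absurd (congrArg Fin.val h4) (by simp [i0, i1])

/-- the function field of an affine curve -/
theorem isFF_frac {B : Type} [CommRing B] [IsDedekindDomain B] [Algebra ℂ B]
    [Algebra.FiniteType ℂ B] (hB : ¬ IsField B) : IsFF ℂ (FractionRing B) := by
  classical
  obtain ⟨s, g, hg, hint⟩ := exists_integral_inj_algHom_of_fg ℂ B
  obtain rfl := one_var hB hg hint
  let ι : B →ₐ[ℂ] FractionRing B := IsScalarTower.toAlgHom ℂ B (FractionRing B)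
  have hι : Function.Injective ι := IsFractionRing.injective B (FractionRing B)
  let x : Fin 1 → FractionRing B := fun i => ι (g (MvPolynomial.X i))
  have hx : (MvPolynomial.aeval x : MvPolynomial (Fin 1) ℂ →ₐ[ℂ] FractionRing B) = ι.comp g := by
    apply MvPolynomial.algHom_ext
    intro i
    rw [MvPolynomial.aeval_X]
    rfl
  have hind : AlgebraicIndependent ℂ x := by
    unfold AlgebraicIndependent
    rw [hx]
    exact hι.comp hg
  have h2 : Algebra.EssFiniteType B (FractionRing B) :=
    Algebra.EssFiniteType.of_isLocalization (FractionRing B) (nonZeroDivisors B)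
  refine ⟨Algebra.EssFiniteType.comp ℂ B (FractionRing B), ?_⟩
  have hbasis : IsTranscendenceBasis ℂ x := by
    rw [isTranscendenceBasis_iff_algebraicIndependent_isAlgebraic]
    refine ⟨hind, ⟨fun z => ?_⟩⟩
    let A0 := Algebra.adjoin ℂ (Set.range x)
    let h : MvPolynomial (Fin 1) ℂ →ₐ[ℂ] A0 :=
      MvPolynomial.aeval fun i => (⟨x i, Algebra.subset_adjoin ⟨i, rfl⟩⟩ : A0)
    have hcomp : (A0.val).comp h = ι.comp g := by
      rw [← hx]
      apply MvPolynomial.algHom_ext
      intro i
      rw [AlgHom.comp_apply, MvPolynomial.aeval_X, MvPolynomial.aeval_X]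
      rfl
    have hi : ∀ b : B, IsIntegral A0 (ι b) := by
      intro b
      obtain ⟨p, hp, hpe⟩ := hint b
      refine ⟨p.map h.toRingHom, hp.map _, ?_⟩
      rw [Polynomial.eval₂_map]
      have h3 : (algebraMap A0 (FractionRing B)).comp h.toRingHom =
          (ι.toRingHom).comp g.toRingHom := by
        apply RingHom.ext
        intro q
        exact congrArg (fun f : MvPolynomial (Fin 1) ℂ →ₐ[ℂ] FractionRing B => f q) hcomp
      rw [h3]
      have h4 := Polynomial.hom_eval₂ p g.toRingHom ι.toRingHom b
      rw [show Polynomial.eval₂ g.toRingHom b p = 0 from hpe, map_zero] at h4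
      exact h4.symm
    obtain ⟨b, c, hc, rfl⟩ := IsFractionRing.div_surjective (A := B) z
    have h5 : IsAlgebraic A0 (ι b) := (hi b).isAlgebraic
    have h6 : IsAlgebraic A0 (ι c) := (hi c).isAlgebraic
    rw [div_eq_mul_inv]
    exact h5.mul h6.inv
  have := hbasis.cardinalMk_eq_trdeg
  rw [← this]
  simp

/-- a finite set of places containing all the places off an affine curve -/
theorem exists_places {B : Type} [CommRing B] [IsDedekindDomain B] [Algebra ℂ B]
    [Algebra.FiniteType ℂ B] [IsFF ℂ (FractionRing B)] : ∃ S : Finset (Place ℂ (FractionRing B)),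
      ∀ P ∉ S, ∀ b : B, Ge P 0 (algebraMap B (FractionRing B) b) := by
  classical
  obtain ⟨s, hs⟩ := (inferInstance : Algebra.FiniteType ℂ B).out
  obtain ⟨T, hT⟩ := exists_supp (k := ℂ) s (fun b => algebraMap B (FractionRing B) b)
  refine ⟨T, fun P hP b => ?_⟩
  have hb : b ∈ Algebra.adjoin ℂ (s : Set B) := by rw [hs]; exact Algebra.mem_top
  induction hb using Algebra.adjoin_induction with
  | mem x hx =>
    right
    by_contra hcon
    push Not at hcon
    exact hP (hT x hx P (by omega))
  | algebraMap c =>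
    rw [← IsScalarTower.algebraMap_apply]
    exact Ge.const c
  | add x y _ _ hx hy =>
    rw [map_add]
    exact hx.add hy
  | mul x y _ _ hx hy =>
    rw [map_mul]
    have h := hx.mul hy
    rwa [add_zero] at h

section

variable {k : Type} [Field k] [IsAlgClosed k] [CharZero k] {L : Type} [Field L] [Algebra k L]
  [IsFF k L] {N : ℕ}

theorem neg_ord_le (f : L) (P : Place k L) : -P.ord f ≤ hgt k f := by
  classical
  obtain ⟨T, hT⟩ := exists_supp (k := k) (Finset.univ : Finset (Fin 1)) ![f]
  have h1 : ∀ P : Place k L, P.ord f ≠ 0 → P ∈ T := fun P => hT 0 (Finset.mem_univ _) P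
  rw [hgt_finset f T h1]
  by_cases hP : P ∈ T
  · refine (le_max_left _ 0).trans ?_
    exact Finset.single_le_sum (f := fun P : Place k L => max (-P.ord f) 0)
      (fun _ _ => le_max_right _ _) hP
  · have h2 : P.ord f = 0 := by
      by_contra h
      exact hP (h1 P h)
    rw [h2, neg_zero]
    exact Finset.sum_nonneg fun _ _ => le_max_right _ _

end

/-- The functions of an affine curve with bounded poles at infinity. -/
theorem bounded_span {B : Type} [CommRing B] [IsDedekindDomain B] [Algebra ℂ B]
    [Algebra.FiniteType ℂ B] [IsFF ℂ (FractionRing B)] {S : Finset (Place ℂ (FractionRing B))}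
    (hS : ∀ P ∉ S, ∀ b : B, Ge P 0 (algebraMap B (FractionRing B) b)) (T : Set B) (C : ℤ)
    (hT : ∀ b ∈ T, ∀ P : Place ℂ (FractionRing B), Ge P (-C) (algebraMap B (FractionRing B) b)) :
    FiniteDimensional ℂ (Submodule.span ℂ T) := by
  classical
  let ι : B →ₐ[ℂ] FractionRing B := IsScalarTower.toAlgHom ℂ B (FractionRing B)
  have hι : Function.Injective ι := IsFractionRing.injective B (FractionRing B)
  let D : Place ℂ (FractionRing B) →₀ ℤ := Finsupp.onFinset S
    (fun P => if P ∈ S then C else 0) (fun P hP => by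
      by_contra hcon
      exact hP (if_neg hcon))
  have hle : Submodule.span ℂ T ≤ (LL D).comap ι.toLinearMap := by
    rw [Submodule.span_le]
    intro b hb
    change ι b = 0 ∨ ∀ P : Place ℂ (FractionRing B), - D P ≤ P.ord (ι b)
    by_cases h0 : ι b = 0
    · exact Or.inl h0
    · right
      intro P
      change -(if P ∈ S then C else 0) ≤ _
      by_cases hP : P ∈ S
      · rw [if_pos hP]
        exact (hT b hb P).resolve_left h0
      · rw [if_neg hP, neg_zero]
        exact (hS P hP b).resolve_left h0
  have hfd : FiniteDimensional ℂ ((LL D).comap ι.toLinearMap) := by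
    let r : ((LL D).comap ι.toLinearMap) →ₗ[ℂ] LL D := ι.toLinearMap.restrict fun x hx => hx
    refine FiniteDimensional.of_injective r ?_
    intro u v huv
    apply Subtype.ext
    apply hι
    exact congrArg Subtype.val huv
  exact Submodule.finiteDimensional_of_le hle

end Pool.Agent.Q80.HC
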