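import Pool.Agent.Q80.HC.Brody
import Pool.Agent.W601.PH.Curve

/-!
Entire curves in projective space which are ramified over hyperplanes.
-/

set_option autoImplicit false

namespace Pool.Agent.Q80.HC

open MvPolynomial Pool.Agent.Y216 Pool.Agent.W602.Cov.R Metric Filter Topology
open Pool.Agent.W601.VF Pool.Agent.W601.PH Pool.Agent.W603.BP
open Pool.Agent.W919.RC.RCV

variable {n q : ℕ}

/-- Hyperplanes which impose independent conditions on forms. -/
theorem ineqE_general (hn : 1 ≤ n) {d : ℕ} {a : Fin q → Fin (n + 1) → ℂ} (ha : Ind d a)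
    {m : Fin q → ℕ} (hsum : 2 * (((n + d - 1).choose (n - 1) : ℕ) : ℝ) < ∑ i, wt (m i)) :
    IneqE a m 1 := by
  classical
  intro v hd hv0 hne _ hM
  by_contra hcon
  push Not at hcon
  obtain ⟨z1, z2, hz⟩ := hcon
  have hdiff : Differentiable ℂ v := differentiable_pi.2 hd
  have hsin := sin_not hdiff hv0 ⟨z2, z1, hz⟩
  have hv := fun j => an_of_diffOn (sin_diff hdiff) j
  have hgan : ∀ z ∈ PB 1, AnalyticAt ℂ (fun w : ℂ => Complex.sin w⁻¹) z := fun z hz =>
    (Complex.differentiable_sin.analyticAt _).comp_of_eq (analyticAt_inv hz.1) rfl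
  have hFan : ∀ i, Differentiable ℂ (fun w => ∑ j, a i j * v w j) := fun i =>
    Differentiable.fun_sum fun j _ => (hd j).const_mul _
  rcases curve_picard hn ha (fun i => wt_nonneg (m i)) (fun i => wt_le (m i)) hsum hv
    (fun z _ => hv0 _) (by
      intro z hz b hb
      rw [Finset.card_eq_sum_ones, Nat.cast_sum, Finset.sum_filter]
      refine Finset.sum_le_sum fun i _ => ?_
      have h1 : (0 : ℝ) ≤ 1 - wt (m i) := by linarith [wt_le (m i)]
      split_ifs with hi
      · have h2 := hb i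
        have h3 : (fun w => ∑ j, a i j * v (Complex.sin w⁻¹) j) =
            (fun w => ∑ j, a i j * v w j) ∘ fun w : ℂ => Complex.sin w⁻¹ := rfl
        rw [h3, ((hFan i).analyticAt _).analyticOrderAt_comp (hgan z hz)] at h2
        have h4 : analyticOrderAt (fun w : ℂ => Complex.sin w⁻¹ - Complex.sin z⁻¹) z ≠ 0 := by
          rw [((hgan z hz).fun_sub analyticAt_const).analyticOrderAt_ne_zero]
          exact sub_self _
        have h5 : (1 : ℕ∞) ≤ analyticOrderAt
            (fun w : ℂ => Complex.sin w⁻¹ - Complex.sin z⁻¹) z :=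
          Order.one_le_iff_ne_zero.2 h4
        rcases hM (Complex.sin z⁻¹) i with h6 | ⟨h6, h7⟩
        · rw [h6, zero_mul] at h2
          exact absurd (by exact_mod_cast h2.symm) hi
        · have h8 : (m i : ℕ∞) ≤ b i := by
            rw [← h2]
            calc (m i : ℕ∞) = m i * 1 := (mul_one _).symm
              _ ≤ _ := mul_le_mul' h7 h5
          have h9 : (m i : ℝ) ≤ b i := by exact_mod_cast h8
          have h10 : (1 : ℝ) ≤ m i := by exact_mod_cast Nat.one_le_iff_ne_zero.2 h6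
          unfold wt
          rw [if_neg h6, Nat.cast_one, sub_sub_cancel]
          rw [one_div_mul_eq_div, le_div_iff₀ (by linarith)]
          linarith
      · exact mul_nonneg h1 (Nat.cast_nonneg _)) with ⟨i, hi⟩ | ⟨h0, _, _, hr⟩
  · obtain ⟨z, hz⟩ := hne i
    obtain ⟨w, hw, hwz⟩ := sin_point z
    apply hz
    have h1 := hi w (mem_disc.1 hw)
    simpa only [hwz] using h1
  · exact hsin (extends_mrel hv (fun z _ => hv0 _) hr)

/-- integral weights -/
theorem exists_wts {m : Fin q → ℕ} {N : ℕ} (hsum : 2 * (N : ℝ) < ∑ i, wt (m i)) :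
    ∃ (A : ℕ) (c : Fin q → ℕ), (∀ i, c i ≤ A) ∧ 2 * N * A < ∑ i, c i ∧
      ∀ i b, (b = 0 ∨ (m i ≠ 0 ∧ m i ≤ b)) → c i * b ≤ A * (b - 1) := by
  classical
  obtain ⟨M, hMd⟩ : ∃ M, M = ∏ i, (if m i = 0 then 1 else m i) := ⟨_, rfl⟩
  have hM0 : 0 < M := by
    rw [hMd]
    refine Finset.prod_pos fun i _ => ?_
    split_ifs with h
    · exact one_pos
    · exact Nat.pos_of_ne_zero h
  have hdvd : ∀ i, ∃ r, (m i ≠ 0 → M = m i * r) ∧ (m i = 0 → r = 0) := by
    intro i
    by_cases h : m i = 0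
    · exact ⟨0, fun h' => absurd h h', fun _ => rfl⟩
    · have h1 : m i ∣ M := by
        have h2 := Finset.dvd_prod_of_mem (fun i => if m i = 0 then 1 else m i)
          (Finset.mem_univ i)
        rw [← hMd] at h2
        simpa only [if_neg h] using h2
      obtain ⟨r, hr⟩ := h1
      exact ⟨r, fun _ => hr, fun h' => absurd h' h⟩
  choose r hr hr0 using hdvd
  have hrM : ∀ i, r i ≤ M := fun i => by
    by_cases h : m i = 0
    · rw [hr0 i h]; exact Nat.zero_le _
    · calc r i = 1 * r i := (one_mul _).symm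
        _ ≤ m i * r i := Nat.mul_le_mul_right _ (Nat.one_le_iff_ne_zero.2 h)
        _ = M := (hr i h).symm
  have hwr : ∀ i, ((M - r i : ℕ) : ℝ) = M * wt (m i) := by
    intro i
    unfold wt
    split_ifs with h
    · rw [hr0 i h, Nat.sub_zero, mul_one]
    · have h0 : (m i : ℝ) ≠ 0 := by exact_mod_cast h
      rw [Nat.cast_sub (hrM i), hr i h]
      push_cast
      field_simp
  refine ⟨M, fun i => M - r i, fun i => Nat.sub_le _ _, ?_, ?_⟩
  · have h1 : ((∑ i, (M - r i) : ℕ) : ℝ) = M * ∑ i, wt (m i) := by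
      rw [Nat.cast_sum, Finset.mul_sum]
      exact Finset.sum_congr rfl fun i _ => hwr i
    have h2 : (0 : ℝ) < M := by exact_mod_cast hM0
    have h3 : ((2 * N * M : ℕ) : ℝ) < ((∑ i, (M - r i) : ℕ) : ℝ) := by
      rw [h1]
      push_cast
      nlinarith
    exact_mod_cast h3
  · intro i b hb
    rcases hb with rfl | ⟨h, hb⟩
    · simp
    · have h2 : M ≤ r i * b := by
        conv_lhs => rw [hr i h, mul_comm]
        exact Nat.mul_le_mul_left _ hb
      rw [Nat.sub_mul, Nat.mul_sub, mul_one]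
      exact Nat.sub_le_sub_left h2 _

/-- Binary forms. -/
theorem ineqE_rnc (hn : 1 ≤ n) {u v : Fin q → ℂ} (huv : ∀ i j, i ≠ j → u i * v j ≠ u j * v i)
    {m : Fin q → ℕ} (hsum : 2 * (n : ℝ) < ∑ i, wt (m i)) :
    IneqE (rnc n u v) m (X (Fin.last n) * discForm ℂ n) := by
  classical
  intro F hd hF0 hne ⟨z0, hz0⟩ hM
  obtain ⟨A, c, hcA, hc, hw⟩ := exists_wts hsum
  have hq : q ≠ 0 := by
    rintro rfl
    simp at hc
  obtain ⟨p, rfl⟩ := Nat.exists_eq_succ_of_ne_zero hq
  have hk : aeval (toK F hd) (X (Fin.last n) * discForm ℂ n) ≠ 0 := by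
    intro h0
    have h1 : toM (aeval (toE F hd) (X (Fin.last n) * discForm ℂ n)) = 0 := by
      rw [← h0, ← AlgHom.comp_apply, comp_aeval]
      rfl
    have h2 := toM_eq_zero h1
    apply hz0
    have h3 : evz z0 (aeval (toE F hd) (X (Fin.last n) * discForm ℂ n)) = 0 := by
      rw [h2, map_zero]
    rw [← h3, ← AlgHom.comp_apply, comp_aeval]
    rfl
  rw [map_mul, aeval_X] at hk
  have hlast := left_ne_zero_of_mul hk
  have hsq := squarefree_of_disc hn hlast (right_ne_zero_of_mul hk)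
  have hdeg : n ≤ (pol (toK F hd)).natDegree := by
    refine Polynomial.le_natDegree_of_ne_zero ?_
    have h := coeff_pol (toK F hd) (Fin.last n)
    rw [Fin.val_last] at h
    rwa [h]
  refine entire_main huv hcA hc hd hF0 hne ⟨hsq, by omega⟩ ?_
  intro z b hb
  rw [Finset.mul_sum]
  refine Finset.sum_le_sum fun i _ => hw i (b i) ?_
  have h1 := hM z i
  have h2 : analyticOrderAt (fun z => ∑ j, rnc n u v i j * F z j) z = b i := hb i
  rw [h2] at h1
  rcases h1 with h1 | ⟨h1, h3⟩
  · left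
    exact_mod_cast h1
  · right
    exact ⟨h1, by exact_mod_cast h3⟩

end Pool.Agent.Q80.HC
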