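import Pool.Agent.Q80.HC.Const

/-!
The height inequality for the image point, for hyperplanes which impose independent conditions.
-/

set_option autoImplicit false

namespace Pool.Agent.Q80.HC

open FF MvPolynomial Pool.Agent.W603.LV Pool.Agent.W603.PV Pool.Agent.W601.VF

variable {k : Type} [Field k] [IsAlgClosed k] [CharZero k] {N n : ℕ}

omit [IsAlgClosed k] [CharZero k] in
/-- Hyperplanes which impose independent conditions on the forms of degree `d + 1`. -/
theorem few_of_ind (hn : 1 ≤ n) {d q : ℕ} {ℓ : Fin q → Fin (n + 1) → k} (hℓ : Ind (d + 1) ℓ) :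
    Few ((n + d).choose (n - 1)) ℓ := by
  classical
  intro s c hc hs
  by_contra hcon
  push Not at hcon
  obtain ⟨hD, -⟩ := finrank_diff (κ := k) (n := n) (d := d) hn
  obtain ⟨e, he⟩ : ∃ e : Fin s.card ≃ s, e = s.equivFin.symm := ⟨_, rfl⟩
  have h1 : Ind (d + 1) (fun i => ℓ (e i)) := by
    intro i
    obtain ⟨P, hP, h1, h2⟩ := hℓ (e i)
    refine ⟨P, hP, h1, fun j hj => h2 _ fun h => hj ?_⟩
    exact e.injective (Subtype.ext h)
  refine hc (h1.span (by rw [hD]; exact hcon) c fun i => ?_)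
  rw [ll_apply, ← hs (e i) (e i).2]

open Classical in
/-- The height inequality for a point of projective space over the function field of a curve. -/
theorem hyper_pt (hn : 1 ≤ n) {d q : ℕ} {ℓ : Fin q → Fin (n + 1) → k} (hℓ : Ind (d + 1) ℓ)
    {w : Fin q → ℝ} (hw : ∀ i, w i ≤ 1)
    (hq : 2 * (((n + d).choose (n - 1) : ℕ) : ℝ) < ∑ i, w i) {L : Type} [Field L] [Algebra k L]
    [IsFF k L] {f : Fin (n + 1) → L} (hne : ∀ i, ∑ j, algebraMap k L (ℓ i j) * f j ≠ 0)
    (S : Finset (Place k L))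
    (hS : ∀ P ∉ S, ((Finset.univ.filter fun i =>
        pord P f < P.ord (∑ j, algebraMap k L (ℓ i j) * f j)).card : ℝ) ≤
      ∑ i, (1 - w i) * ((P.ord (∑ j, algebraMap k L (ℓ i j) * f j) - pord P f : ℤ) : ℝ)) :
    (∑ i, w i - 2 * (((n + d).choose (n - 1) : ℕ) : ℝ)) * (pht k f : ℝ) ≤
      (((n + d).choose (n - 1) : ℕ) : ℝ) * ((max (canDeg k L + S.card) 0 : ℤ) : ℝ) := by
  obtain ⟨R, hRℓ, hRb⟩ := exists_frame hn hℓ
  set b := (n + d).choose (n - 1) with hb
  have hb0 : (0 : ℝ) ≤ (b : ℝ) := by positivity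
  have hq0 : Nonempty (Fin q) := by
    by_contra hcon
    rw [not_nonempty_iff] at hcon
    rw [Finset.univ_eq_empty, Finset.sum_empty] at hq
    linarith
  obtain ⟨i0⟩ := hq0
  have hℓR : ∀ i, R.ℓR i f = ∑ j, algebraMap k L (ℓ i j) * f j := by
    intro i
    unfold Frame.ℓR
    refine Finset.sum_congr rfl fun j _ => ?_
    rw [hRℓ, ll_apply, Finset.sum_eq_single j]
    · rw [Pi.single_eq_same, mul_one, mul_comm]
    · intro l _ hl
      rw [Pi.single_eq_of_ne hl, mul_zero]
    · simp
  have hne' : ∀ i, R.ℓR i f ≠ 0 := fun i => by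
    rw [hℓR]
    exact hne i
  have hf0 : ∃ l, f l ≠ 0 := by
    by_contra hcon
    push Not at hcon
    exact hne i0 (Finset.sum_eq_zero fun j _ => by rw [hcon j, mul_zero])
  obtain ⟨D, hD⟩ := exists_der (k := k) (K := L)
  by_cases hconst : ∀ a b, f a * D (f b) - f b * D (f a) = 0
  · obtain ⟨l, hl⟩ := hf0
    have h1 : ∀ j, ∃ c : k, f j = f l * algebraMap k L c := by
      intro j
      have h2 : D (f j / f l) = 0 := by
        have h3 : f l * (f j / f l) = f j := by field_simp
        have h4 := congrArg D h3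
        rw [D.leibniz, smul_eq_mul, smul_eq_mul] at h4
        have h5 := hconst l j
        have h6 : f l * (f l * D (f j / f l)) = 0 := by
          have h7 : f l * D (f j / f l) = D (f j) - f j / f l * D (f l) := by
            rw [← h4]; ring
          rw [h7, mul_sub]
          have h8 : f l * (f j / f l * D (f l)) = f j * D (f l) := by field_simp
          rw [h8]
          exact h5
        exact (mul_eq_zero.1 ((mul_eq_zero.1 h6).resolve_left hl)).resolve_left hl
      obtain ⟨c, hc⟩ := const_of_der hD h2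
      exact ⟨c, by rw [← hc]; field_simp⟩
    choose c hc using h1
    rw [pht_const hl hc, Int.cast_zero, mul_zero]
    exact mul_nonneg hb0 (by exact_mod_cast le_max_right _ _)
  · push Not at hconst
    obtain ⟨a, c, hac⟩ := hconst
    have h1 := R.core_real hD hac hne' w hw S (by
      intro P hP
      simp only [hℓR]
      exact hS P hP)
    rw [hRb] at h1
    have h4 : ∑ P ∈ S, ((Finset.univ.filter fun i => pord P f < P.ord (R.ℓR i f)).card : ℝ) ≤
        (b : ℝ) * S.card := by
      have h2 : ∀ P ∈ S, ((Finset.univ.filter fun i => pord P f < P.ord (R.ℓR i f)).card : ℝ) ≤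
          b := by
        intro P _
        have := few_pt (few_of_ind hn hℓ) P hf0 hne
          (Finset.univ.filter fun i => pord P f < P.ord (R.ℓR i f)) fun i hi => by
            have h3 := (Finset.mem_filter.1 hi).2
            rwa [hℓR] at h3
        exact_mod_cast this
      refine (Finset.sum_le_sum h2).trans ?_
      rw [Finset.sum_const, nsmul_eq_mul, mul_comm]
    have h7 : ((canDeg k L : ℝ) + (S.card : ℝ)) ≤ ((max (canDeg k L + S.card) 0 : ℤ) : ℝ) := by
      exact_mod_cast le_max_left _ _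
    have h8 := mul_le_mul_of_nonneg_left h7 hb0
    linarith

theorem img_hyper (hn : 1 ≤ n) {d q : ℕ} {ℓ : Fin q → Fin (n + 1) → k} (hℓ : Ind (d + 1) ℓ)
    {w : Fin q → ℝ} (hw : ∀ i, w i ≤ 1)
    (hq : 2 * (((n + d).choose (n - 1) : ℕ) : ℝ) < ∑ i, w i)
    {p : Ideal (MvPolynomial (Fin (N + 1)) k)} {Q : MvPolynomial (Fin (N + 1)) k} {e : ℕ}
    {φ : Fin (n + 1) → MvPolynomial (Fin (N + 1)) k} (hR : RamC p Q e φ ℓ w) :
    ImgC p Q e φ ℓ w ((n + d).choose (n - 1)) 1 := by
  classical
  intro L _ _ _ x hx hxQ hxℓ _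
  have hx0 : ∃ j, x j ≠ 0 := by
    by_contra hcon
    push Not at hcon
    exact hx.1 (funext hcon)
  have hMfin : (meets (k := k) Q e x).Finite := meets_finite Q e hx0
  have hlv : ∀ i, aeval x (lform φ (ℓ i)) = ∑ j, algebraMap k L (ℓ i j) * img φ x j := by
    intro i
    unfold lform img
    rw [map_sum]
    refine Finset.sum_congr rfl fun j _ => ?_
    rw [map_mul, aeval_C]
    rfl
  rw [Set.ncard_eq_toFinset_card _ hMfin]
  refine hyper_pt hn hℓ hw hq (fun i => by rw [← hlv]; exact hxℓ i) hMfin.toFinset ?_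
  intro P hP
  rw [Set.Finite.mem_toFinset] at hP
  have h2 := hR L x hx hxQ hxℓ P hP
  refine le_trans (le_of_eq ?_) (h2.trans (le_of_eq ?_))
  · congr 2
    ext i
    simp only [Finset.mem_filter, Finset.mem_univ, true_and]
    unfold cont
    rw [hlv, sub_pos]
  · refine Finset.sum_congr rfl fun i _ => ?_
    unfold cont
    rw [hlv]

/-- The degree bound for the curves in varieties ramified over hyperplanes. -/
theorem main (hn : 1 ≤ n) {d q : ℕ} {ℓ : Fin q → Fin (n + 1) → k} (hℓ : Ind d ℓ)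
    {w : Fin q → ℝ} (hw : ∀ i, w i ≤ 1)
    (hq : 2 * (((n + d - 1).choose (n - 1) : ℕ) : ℝ) < ∑ i, w i)
    (p : Ideal (MvPolynomial (Fin (N + 1)) k)) (Q : MvPolynomial (Fin (N + 1)) k) (e : ℕ)
    (φ : Fin (n + 1) → MvPolynomial (Fin (N + 1)) k) (hR : RamC p Q e φ ℓ w) :
    ImgC p Q e φ ℓ w ((n + d - 1).choose (n - 1)) 1 ∧
      ∀ [p.IsPrime], Admissible p Q e φ ℓ → DegC p Q e := by
  obtain ⟨d', rfl⟩ := pos_degree hℓ hw hq hn
  have h := img_hyper hn hℓ hw hq hR
  refine ⟨h, ?_⟩
  intro _ hA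
  refine deg_of_img (Nat.choose_pos (by omega)) hq hA (isHomogeneous_one _ _) ?_ h
  rw [map_one]
  exact fun h1 => (inferInstance : p.IsPrime).ne_top ((Ideal.eq_top_iff_one p).2 h1)

end Pool.Agent.Q80.HC
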