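import Pool.Agent.Q80.HC.Const
import Pool.Agent.Y216.VfC

/-!
The height inequality for the image point, for the space of the binary forms and the hyperplanes of
the forms which vanish at given points of the projective line.
-/

set_option autoImplicit false

namespace Pool.Agent.Q80.HC

open FF MvPolynomial Pool.Agent.W603.LV Pool.Agent.W603.PV Pool.Agent.W601.VF Pool.Agent.Y216

variable {k : Type} [Field k] [IsAlgClosed k] [CharZero k] {N n q : ℕ}

omit [IsAlgClosed k] [CharZero k] in
/-- At most `n` of the given points are zeros of a binary form of degree `n`. -/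
theorem few_rnc {u v : Fin q → k} (huv : ∀ i j, i ≠ j → u i * v j ≠ u j * v i) :
    Few n (rnc n u v) := by
  classical
  intro s c hc hs
  by_contra hcon
  push Not at hcon
  obtain ⟨T, hTs, hTc⟩ := Finset.exists_subset_card_eq (s := s) (n := n + 1) (by omega)
  obtain ⟨e, he⟩ : ∃ e : Fin (n + 1) ≃ T, e = (T.equivFinOfCardEq hTc).symm := ⟨_, rfl⟩
  have hli := rnc_genPos huv (n := n) (fun i => (e i : Fin q)) fun i j h =>
    e.injective (Subtype.ext h)
  have h1 : IsUnit (Matrix.of fun i j => rnc n u v (e i) j : Matrix (Fin (n + 1)) (Fin (n + 1)) k) :=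
    Matrix.linearIndependent_rows_iff_isUnit.1 hli
  have h2 : (Matrix.of fun i j => rnc n u v (e i) j : Matrix (Fin (n + 1)) (Fin (n + 1)) k).mulVec c
      = 0 := by
    funext i
    rw [Matrix.mulVec, dotProduct]
    exact hs _ (hTs (e i).2)
  apply hc
  have h3 := (Matrix.isUnit_iff_isUnit_det _).1 h1
  exact Matrix.eq_zero_of_mulVec_eq_zero h3.ne_zero h2

open Classical in
/-- The inequality with weights, for the affine curve. -/
theorem rnc_strong {L : Type} [Field L] [Algebra k L] [IsFF k L] {u v : Fin q → k}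
    (huv : ∀ i j, i ≠ j → u i * v j ≠ u j * v i) {w : Fin q → ℝ}
    (hw : ∀ i, w i ≤ 1) (B : Finset (Place k L)) {n : ℕ} (hsum : 2 * (n : ℝ) < ∑ i, w i)
    {f : Fin (n + 1) → L} (hlast : f (Fin.last n) ≠ 0) (hsq : Squarefree (pol f))
    (hne : ∀ i, lv (rnc n u v i) f ≠ 0)
    (hB : ∀ P ∉ B,
      ((Finset.univ.filter fun i => pord P f < P.ord (lv (rnc n u v i) f)).card : ℝ) ≤
      ∑ i, (1 - w i) * ((P.ord (lv (rnc n u v i) f) - pord P f : ℤ) : ℝ)) :
    (∑ i, w i - 2 * n) * (pht k f : ℝ) ≤ n * ((max (canDeg k L + B.card) 0 : ℤ) : ℝ) := by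
  have hmax : (0 : ℝ) ≤ ((max (canDeg k L + B.card) 0 : ℤ) : ℝ) := by
    exact_mod_cast le_max_right _ _
  induction n with
  | zero =>
    have h1 : pht k f = 0 := Pool.Agent.W601.VF.pht_const (l := 0) (by simpa using hlast)
      (c := fun _ => 1) fun j => by
        rw [show j = 0 from Fin.ext (by have := j.2; omega), map_one, mul_one]
    rw [h1]
    simp
  | succ n ih =>
    by_cases hroot : ∃ b : k, (pol f).eval (algebraMap k L b) = 0
    · obtain ⟨b, hb⟩ := hroot
      obtain ⟨G, hG⟩ := Polynomial.dvd_iff_isRoot.2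
        (show (pol f).IsRoot (algebraMap k L b) from hb)
      have hF0 : pol f ≠ 0 := hsq.ne_zero
      have hG0 : G ≠ 0 := by
        rintro rfl
        exact hF0 (by rw [hG, mul_zero])
      have hGd : G.natDegree ≤ n := by
        have h1 := natDegree_pol_le f
        rw [hG, Polynomial.natDegree_mul (Polynomial.X_sub_C_ne_zero _) hG0,
          Polynomial.natDegree_X_sub_C] at h1
        omega
      obtain ⟨g, hg⟩ : ∃ g : Fin (n + 1) → L, g = fun j : Fin (n + 1) => G.coeff (j : ℕ) :=
        ⟨_, rfl⟩
      have hGg : G = pol g := by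
        rw [hg]
        exact eq_pol hGd
      have hfg : f = mulLin (algebraMap k L b) g := by
        apply pol_inj
        rw [pol_mulLin, ← hGg, hG]
      have hglast : g (Fin.last n) ≠ 0 := by
        rwa [hfg, mulLin_last] at hlast
      have hgsq : Squarefree (pol g) := by
        rw [hG, hGg] at hsq
        exact hsq.of_mul_right
      have hlv : ∀ i, lv (rnc (n + 1) u v i) f =
          algebraMap k L (v i - b * u i) * lv (rnc n u v i) g := by
        intro i
        rw [lv_rnc, lv_rnc, hfg, bev_mulLin, map_sub, map_mul]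
      have hc' : ∀ i, v i - b * u i ≠ 0 := by
        intro i h0
        apply hne i
        rw [hlv, h0, map_zero, zero_mul]
      have hgne : ∀ i, lv (rnc n u v i) g ≠ 0 := by
        intro i h0
        apply hne i
        rw [hlv, h0, mul_zero]
      have hord : ∀ (P : Place k L) i, P.ord (lv (rnc (n + 1) u v i) f) =
          P.ord (lv (rnc n u v i) g) := by
        intro P i
        rw [hlv, P.ord_mul ((_root_.map_ne_zero _).2 (hc' i)) (hgne i), P.ord_const (hc' i),
          zero_add]
      have hpord : ∀ P : Place k L, pord P f = pord P g := fun P => by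
        rw [hfg]
        exact pord_mulLin P hglast
      have hpht : pht k f = pht k g := by
        unfold pht
        simp only [hpord]
      simp only [hord, hpord] at hB ⊢
      have h1 := ih (by push_cast at hsum; linarith) hglast hgsq hgne hB
      have h2 : (0 : ℝ) ≤ (pht k g : ℝ) := by
        exact_mod_cast pht_nonneg' (k := k) ⟨_, hglast⟩
      have e : ((n + 1 : ℕ) : ℝ) = n + 1 := by push_cast; ring
      rw [hpht, e]
      nlinarith
    · push Not at hroot
      obtain ⟨D, hD⟩ := exists_der (k := k) (K := L)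
      have hR := res_ne_zero hD hlast hsq hroot
      have hq : n + 1 + (n + 1) ≤ q := by
        have h1 : ∑ i, w i ≤ q := by
          calc ∑ i, w i ≤ ∑ _i : Fin q, (1 : ℝ) := Finset.sum_le_sum fun i _ => hw i
            _ = q := by simp
        have h2 : ((n + 1 + (n + 1) : ℕ) : ℝ) < q := by
          push_cast at hsum ⊢
          linarith
        exact_mod_cast h2.le
      have h1 := glob_trunc (b := n + 1) hD ⟨_, hlast⟩ hne
        (fun P => rnc_local P hD ⟨_, hlast⟩ huv hq hne hR) hw B hB
      have h3 : ∀ P ∈ B, ((Finset.univ.filter fun i =>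
          pord P f < P.ord (lv (rnc (n + 1) u v i) f)).card : ℝ) ≤ ((n + 1 : ℕ) : ℝ) := by
        intro P _
        have := few_pt (few_rnc huv (n := n + 1)) P ⟨_, hlast⟩ hne
          (Finset.univ.filter fun i => pord P f < P.ord (lv (rnc (n + 1) u v i) f))
          fun i hi => (Finset.mem_filter.1 hi).2
        exact_mod_cast this
      have h4 := Finset.sum_le_sum h3
      rw [Finset.sum_const, nsmul_eq_mul] at h4
      have h5 : ((canDeg k L : ℝ) + (B.card : ℝ)) ≤ ((max (canDeg k L + B.card) 0 : ℤ) : ℝ) := by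
        exact_mod_cast le_max_left _ _
      have h6 : (0 : ℝ) ≤ ((n + 1 : ℕ) : ℝ) := by positivity
      have h7 := mul_le_mul_of_nonneg_left h5 h6
      linarith

theorem img_binary (hn : 1 ≤ n) {u v : Fin q → k} (huv : ∀ i j, i ≠ j → u i * v j ≠ u j * v i)
    {w : Fin q → ℝ} (hw : ∀ i, w i ≤ 1) (hq : 2 * (n : ℝ) < ∑ i, w i)
    {p : Ideal (MvPolynomial (Fin (N + 1)) k)} {Q : MvPolynomial (Fin (N + 1)) k} {e : ℕ}
    {φ : Fin (n + 1) → MvPolynomial (Fin (N + 1)) k} (hR : RamC p Q e φ (rnc n u v) w) :
    ImgC p Q e φ (rnc n u v) w n (X (Fin.last n) * discForm k n) := by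
  classical
  intro L _ _ _ x hx hxQ hxℓ hΔ
  rw [map_mul, aeval_X] at hΔ
  have hlast := left_ne_zero_of_mul hΔ
  have hsq := squarefree_of_disc hn hlast (right_ne_zero_of_mul hΔ)
  obtain ⟨f, hf⟩ : ∃ f, f = img φ x := ⟨_, rfl⟩
  rw [← hf] at hlast hsq ⊢
  have hne : ∀ i, lv (rnc n u v i) f ≠ 0 := fun i => by
    rw [hf, ← aeval_lform_lv]
    exact hxℓ i
  have hx0 : ∃ j, x j ≠ 0 := by
    by_contra hcon
    push Not at hcon
    exact hx.1 (funext hcon)
  have hMfin : (meets (k := k) Q e x).Finite := meets_finite Q e hx0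
  have hcnt : ∀ (P : Place k L) i, pord P f < P.ord (lv (rnc n u v i) f) ↔
      0 < cont P φ (rnc n u v i) x := by
    intro P i
    unfold cont
    rw [aeval_lform_lv, sub_pos, hf]
  have h1 := rnc_strong huv hw hMfin.toFinset hq hlast hsq hne (by
      intro P hP
      rw [Set.Finite.mem_toFinset] at hP
      have h2 := hR L x hx hxQ hxℓ P hP
      have h3 : (Finset.univ.filter fun i => pord P f < P.ord (lv (rnc n u v i) f)) =
          Finset.univ.filter fun i => 0 < cont P φ (rnc n u v i) x := by
        ext i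
        simp only [Finset.mem_filter, Finset.mem_univ, true_and]
        exact hcnt P i
      rw [h3]
      refine le_trans (le_of_eq ?_) (h2.trans (le_of_eq ?_))
      · congr!
      · refine Finset.sum_congr rfl fun i _ => ?_
        unfold cont
        rw [aeval_lform_lv, ← hf])
  rw [Set.ncard_eq_toFinset_card _ hMfin]
  exact h1

/-- The degree bound for the curves in varieties ramified over hyperplanes of binary forms. -/
theorem mainB (hn : 1 ≤ n) {u v : Fin q → k} (huv : ∀ i j, i ≠ j → u i * v j ≠ u j * v i)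
    {w : Fin q → ℝ} (hw : ∀ i, w i ≤ 1) (hq : 2 * (n : ℝ) < ∑ i, w i)
    {p : Ideal (MvPolynomial (Fin (N + 1)) k)} {Q : MvPolynomial (Fin (N + 1)) k} {e : ℕ}
    {φ : Fin (n + 1) → MvPolynomial (Fin (N + 1)) k} (hR : RamC p Q e φ (rnc n u v) w) [p.IsPrime]
    (hA : Admissible p Q e φ (rnc n u v)) (hlast : φ (Fin.last n) ∉ p)
    (hdisc : aeval φ (discForm k n) ∉ p) : DegC p Q e := by
  refine deg_of_img (b := n) (m := 1 + (n + (n - 1))) hn hq hA
    ((isHomogeneous_X _ _).mul discForm_homogeneous) ?_ (img_binary hn huv hw hq hR)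
  rw [map_mul, aeval_X]
  intro h
  rcases Ideal.IsPrime.mem_or_mem inferInstance h with h | h
  · exact hlast h
  · exact hdisc h

end Pool.Agent.Q80.HC
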