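import Pool.Agent.Y216.GT

/-!
Varieties which are ramified, outside a boundary, over hyperplanes in general position: log general
type.
-/

set_option autoImplicit false

open FF Pool.Agent.W602.GT Pool.Agent.W603.LV Pool.Agent.W603.PV Pool.Agent.Y216

namespace Pool.Agent.Q80.HC

variable {k K : Type} [Field k] [Field K] [Algebra k K] {n q : ℕ}

/-- The weight of a multiplicity, where `0` stands for infinity. -/
noncomputable def wt (m : ℕ) : ℝ := if m = 0 then 1 else 1 - 1 / (m : ℝ)

theorem wt_le (m : ℕ) : wt m ≤ 1 := by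
  unfold wt
  split_ifs
  · exact le_rfl
  · have : (0 : ℝ) ≤ 1 / (m : ℝ) := by positivity
    linarith

theorem wt_nonneg (m : ℕ) : 0 ≤ wt m := by
  unfold wt
  split_ifs with h
  · norm_num
  · have h1 : (1 : ℝ) ≤ m := by exact_mod_cast Nat.one_le_iff_ne_zero.2 h
    have h2 : 1 / (m : ℝ) ≤ 1 := by rw [div_le_one (by linarith)]; exact h1
    linarith

theorem bw_ge_log (P : Place k K) (D : Fin n → Derivation k K K) (f : Fin (n + 1) → K)
    (hD : ∀ i, DerLog P (D i)) (hf : ∀ j, f j ≠ 0) : Ge P (∑ j, P.ord (f j)) (bw D f) := by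
  rw [bw_log D f hf, ← ord_prod' P Finset.univ f (fun j _ => hf j)]
  have h1 : Ge P 0 (Matrix.of fun i j : Fin n => D i (f j.succ / f 0) / (f j.succ / f 0)).det := by
    refine ge_det P _ 0 (fun _ _ => 0) (fun i j => ?_) (fun σ => by simp)
    exact hD i _
  have h2 := (ge_ord P (∏ j, f j)).mul h1
  rwa [add_zero] at h2

theorem lv_ne {a : Fin q → Fin (n + 1) → k}
    (ha : ∀ s : Fin (n + 1) → Fin q, Function.Injective s →
      LinearIndependent k (fun i => a (s i))) (hq : n + 1 < q) {c : Fin (n + 1) → K}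
    (hc0 : c 0 ≠ 0) (hc : IsTranscendenceBasis k (fun j : Fin n => c j.succ / c 0)) (i : Fin q) :
    lv (a i) c ≠ 0 := by
  intro h0
  obtain ⟨s, hs, hsi⟩ : ∃ s : Fin (n + 1) → Fin q, Function.Injective s ∧ s 0 = i := by
    let e : Fin (n + 1) → Fin q := fun l => ⟨l, by omega⟩
    have he : Function.Injective e := fun x y h => by
      have := congrArg Fin.val h
      exact Fin.ext this
    refine ⟨Equiv.swap (e 0) i ∘ e, (Equiv.injective _).comp he, ?_⟩
    simp
  have hne : a i ≠ 0 := by
    have := (ha s hs).ne_zero 0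
    simpa [hsi] using this
  have h1 : algebraMap k K (a i 0) + ∑ j : Fin n, algebraMap k K (a i j.succ) *
      (c j.succ / c 0) = 0 := by
    have h2 : lv (a i) c = c 0 * (algebraMap k K (a i 0) +
        ∑ j : Fin n, algebraMap k K (a i j.succ) * (c j.succ / c 0)) := by
      unfold lv
      rw [Fin.sum_univ_succ, mul_add, Finset.mul_sum]
      congr 1
      · ring
      · refine Finset.sum_congr rfl fun j _ => ?_
        field_simp
    rw [h2] at h0
    exact (mul_eq_zero.1 h0).resolve_left hc0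
  have h3 := hc.1
  rw [algebraicIndependent_iff] at h3
  have h4 := h3 (MvPolynomial.C (a i 0) + ∑ j : Fin n, MvPolynomial.C (a i j.succ) *
    MvPolynomial.X j) (by
      rw [map_add, map_sum, MvPolynomial.aeval_C, ← h1]
      congr 1
      refine Finset.sum_congr rfl fun j _ => ?_
      rw [map_mul, MvPolynomial.aeval_C, MvPolynomial.aeval_X])
  apply hne
  funext l
  refine Fin.cases ?_ (fun j => ?_) l
  · have h5 := congrArg (MvPolynomial.coeff 0) h4
    simpa [MvPolynomial.coeff_sum, MvPolynomial.coeff_C_mul] using h5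
  · have h5 := congrArg (MvPolynomial.coeff (Finsupp.single j 1)) h4
    rw [MvPolynomial.coeff_add, MvPolynomial.coeff_sum, Finset.sum_eq_single j] at h5
    · rw [MvPolynomial.coeff_C_mul, MvPolynomial.coeff_X, MvPolynomial.coeff_C] at h5
      have h6 : ¬ (0 : Fin n →₀ ℕ) = Finsupp.single j 1 := by
        intro h
        have := congrArg (fun f => f j) h
        simp at this
      rw [if_neg h6] at h5
      simpa using h5
    · intro b _ hb
      rw [MvPolynomial.coeff_C_mul, MvPolynomial.coeff_X, if_neg, mul_zero]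
      intro h
      exact hb (Finsupp.single_left_injective one_ne_zero h)
    · simp

/-- Regularity of the forms at a place. -/
theorem frm_reg [CharZero k] {a : Fin q → Fin (n + 1) → k}
    (ha : ∀ s : Fin (n + 1) → Fin q, Function.Injective s →
      LinearIndependent k (fun i => a (s i))) (hq : n + 1 < q) {c : Fin (n + 1) → K}
    (hc0 : c 0 ≠ 0) (hlne : ∀ i, lv (a i) c ≠ 0) {m r : Fin q → ℕ} {M E : ℕ}
    (hrM : ∀ i, r i ≤ M) (hr : ∀ i, m i ≠ 0 → M = m i * r i)
    (hE : (n + 1) * M + (E + 1) = ∑ i, (M - r i)) (P : Place k K)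
    (D : Fin n → Derivation k K K) (j : Fin (n + 1))
    (h : (∀ i, DerLog P (D i)) ∨ ((∀ i, DerReg P (D i)) ∧ ∀ i,
      pord P c < P.ord (lv (a i) c) → m i ≠ 0 ∧ pord P c + m i ≤ P.ord (lv (a i) c))) :
    P.Reg (frm a M E (fun i => M - r i) c j D) := by
  classical
  obtain ⟨w, hw⟩ : ∃ w : Fin q → ℕ, w = fun i => M - r i := ⟨_, rfl⟩
  have hE' : (n + 1) * M + (E + 1) = ∑ i, w i := by rw [hw]; exact hE
  rw [← hw]
  -- normalization
  have hcne : ∃ j, c j ≠ 0 := ⟨0, hc0⟩
  set π := unif P with hπd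
  have hπ : P.ord π = 1 := ord_unif P
  have hπ0 : π ≠ 0 := by
    intro h
    rw [h, P.ord_zero] at hπ; omega
  set t := π ^ (- pord P c) with ht
  have ht0 : t ≠ 0 := zpow_ne_zero _ hπ0
  have hto : P.ord t = - pord P c := by rw [ht, P.ord_zpow, hπ, mul_one]
  rw [reg_iff_ge, ← frm_scale a M E w hE' c j D ht0]
  set g : Fin (n + 1) → K := fun l => t * c l with hg
  have hg0 : ∀ l, Ge P 0 (g l) := by
    intro l
    have h1 := (ge_ord P t).mul (ge_pord P c l)
    rw [hto] at h1
    exact h1.mono (by omega)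
  have hlg : ∀ i, lv (a i) g = t * lv (a i) c := fun i => lv_scale _ _ _
  have hlgne : ∀ i, lv (a i) g ≠ 0 := fun i => by
    rw [hlg]; exact mul_ne_zero ht0 (hlne i)
  have hlo : ∀ i, P.ord (lv (a i) g) = P.ord (lv (a i) c) - pord P c := fun i => by
    rw [hlg, P.ord_mul ht0 (hlne i), hto]; ring
  have hlge : ∀ i, 0 ≤ P.ord (lv (a i) g) := fun i =>
    one_le_of_ge (hlgne i) (lv_ge (a i) hg0)
  -- the set of the hyperplanes through the centre
  set J : Finset (Fin q) := Finset.univ.filter fun i => 0 < P.ord (lv (a i) g) with hJ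
  have hJcard : J.card ≤ n := by
    by_contra hcon
    push Not at hcon
    obtain ⟨T, hTJ, hTc⟩ := Finset.exists_subset_card_eq (s := J) (n := n + 1) hcon
    let e : Fin (n + 1) ≃ T := (Fintype.equivFinOfCardEq (by simpa using hTc)).symm
    have h1 := ge_of_indep (P := P) (N := 1) (A := fun i => a (e i : Fin q)) (x := g)
      (ha (fun i => (e i : Fin q)) (fun x y h => e.injective (Subtype.ext h))) (fun i => by
        right
        have h2 : (e i : Fin q) ∈ J := hTJ (e i).2
        have h3 := (Finset.mem_filter.1 h2).2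
        omega)
    obtain ⟨l, hl, hlo'⟩ := exists_pord P hcne
    have h2 := (h1 l).resolve_left (mul_ne_zero ht0 hl)
    rw [hg] at h2
    simp only at h2
    rw [P.ord_mul ht0 hl, hto, hlo'] at h2
    omega
  obtain ⟨T, hJT, hTc⟩ := Finset.exists_superset_card_eq (s := J) (n := n + 1) (by omega)
    (by rw [Fintype.card_fin]; omega)
  let e : Fin (n + 1) ≃ T := (Fintype.equivFinOfCardEq (by simpa using hTc)).symm
  have hinj : Function.Injective fun i => (e i : Fin q) :=
    fun x y h => e.injective (Subtype.ext h)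
  have hind := ha (fun i => (e i : Fin q)) hinj
  have hsumT : ∑ l, P.ord (lv (a (e l)) g) = ∑ i, P.ord (lv (a i) g) := by
    rw [Equiv.sum_comp e (fun i : T => P.ord (lv (a i) g)),
      Finset.sum_coe_sort T (fun i => P.ord (lv (a i) g))]
    refine Finset.sum_subset (Finset.subset_univ _) fun i _ hi => ?_
    have h1 : i ∉ J := fun h => hi (hJT h)
    have h2 : ¬ 0 < P.ord (lv (a i) g) := fun h => h1 (Finset.mem_filter.2
      ⟨Finset.mem_univ _, h⟩)
    have := hlge i
    omega
  set A : Matrix (Fin (n + 1)) (Fin (n + 1)) k := fun i => a (e i : Fin q) with hA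
  have hdet : A.det ≠ 0 := by
    have hu : IsUnit A := Matrix.linearIndependent_rows_iff_isUnit.1 hind
    exact ((Matrix.isUnit_iff_isUnit_det A).1 hu).ne_zero
  have hdet' : algebraMap k K A.det ≠ 0 := (map_ne_zero _).2 hdet
  have h2A : ∑ i, P.ord (lv (A i) g) = ∑ i, P.ord (lv (a i) g) := hsumT
  -- conclusion
  have hprod : P.ord (∏ i, lv (a i) g ^ w i) = ∑ i, w i * P.ord (lv (a i) g) := by
    rw [ord_prod' P _ _ (fun i _ => pow_ne_zero _ (hlgne i))]
    exact Finset.sum_congr rfl fun i _ => P.ord_pow _ _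
  have hprodne : ∏ i, lv (a i) g ^ w i ≠ 0 :=
    Finset.prod_ne_zero_iff.2 fun i _ => pow_ne_zero _ (hlgne i)
  have hcoef : Ge P 0 (g 0 ^ E * g j) := by
    have := ((hg0 0).pow E).mul (hg0 j)
    simpa using this
  have hwM : ∀ i, (w i : ℤ) = M - r i := fun i => by
    rw [hw]
    push_cast [Nat.cast_sub (hrM i)]
    rfl
  have hsplit : ∑ i, (w i : ℤ) * P.ord (lv (a i) g) =
      M * ∑ i, P.ord (lv (a i) g) - ∑ i, (r i : ℤ) * P.ord (lv (a i) g) := by
    rw [Finset.mul_sum, ← Finset.sum_sub_distrib]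
    exact Finset.sum_congr rfl fun i _ => by rw [hwM]; ring
  have hrnn : ∀ i ∈ Finset.univ, (0 : ℤ) ≤ (r i : ℤ) * P.ord (lv (a i) g) := fun i _ =>
    mul_nonneg (by positivity) (hlge i)
  have key : Ge P (∑ i, w i * P.ord (lv (a i) g)) (bw D g ^ M) := by
    rcases h with hD | ⟨hD, hmul⟩
    · have hbw : Ge P (∑ i, P.ord (lv (a i) g)) (bw D g) := by
        have h1 := bw_ge_log P D (fun i => lv (A i) g) hD (fun i => hlgne _)
        rw [bw_indep, h2A] at h1
        have h3 := Ge.of_mul hdet' h1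
        rwa [P.ord_const hdet, sub_zero] at h3
      refine (hbw.pow M).mono ?_
      rw [hsplit]
      have := Finset.sum_nonneg hrnn
      linarith
    · have hmult : ∀ i, 0 < P.ord (lv (a i) g) → m i ≠ 0 ∧ (m i : ℤ) ≤ P.ord (lv (a i) g) := by
        intro i h
        have h1 := hmul i (by rw [hlo] at h; omega)
        rw [hlo]
        exact ⟨h1.1, by omega⟩
      have hbw : Ge P ((∑ i, P.ord (lv (a i) g)) - 1) (bw D g) := by
        have h1 := bw_ge P D (fun i => lv (A i) g) hD (fun i => hlgne _)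
        rw [bw_indep, h2A] at h1
        have h3 := Ge.of_mul hdet' h1
        rwa [P.ord_const hdet, sub_zero] at h3
      have hbw0 : Ge P 0 (bw D g) := bw_reg P D g hD hg0
      by_cases hJe : J = ∅
      · have h1 : ∀ i, P.ord (lv (a i) g) = 0 := by
          intro i
          have h2 : i ∉ J := by rw [hJe]; simp
          have h3 : ¬ 0 < P.ord (lv (a i) g) := fun h => h2 (Finset.mem_filter.2
            ⟨Finset.mem_univ _, h⟩)
          have := hlge i
          omega
        simp only [h1, mul_zero, Finset.sum_const_zero]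
        simpa using hbw0.pow M
      · obtain ⟨i0, hi0⟩ := Finset.nonempty_iff_ne_empty.2 hJe
        have hi0' := (Finset.mem_filter.1 hi0).2
        refine (hbw.pow M).mono ?_
        rw [hsplit, mul_sub, mul_one]
        have h3 : (r i0 : ℤ) * P.ord (lv (a i0) g) ≤ ∑ i, (r i : ℤ) * P.ord (lv (a i) g) :=
          Finset.single_le_sum (f := fun i => (r i : ℤ) * P.ord (lv (a i) g))
            hrnn (Finset.mem_univ i0)
        obtain ⟨h50, h5⟩ := hmult i0 hi0'
        have h4 : (M : ℤ) = m i0 * r i0 := by exact_mod_cast hr i0 h50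
        have h6 : (m i0 : ℤ) * r i0 ≤ r i0 * P.ord (lv (a i0) g) := by
          rw [mul_comm]
          exact mul_le_mul_of_nonneg_left h5 (by positivity)
        linarith
  unfold frm
  have h1 := ge_div hprodne (key.mul hcoef)
  rw [hprod] at h1
  simpa using h1

/-- **Log general type.** -/
theorem lgt_main [CharZero k] {a : Fin q → Fin (n + 1) → k}
    (ha : ∀ s : Fin (n + 1) → Fin q, Function.Injective s →
      LinearIndependent k (fun i => a (s i)))
    {m : Fin q → ℕ} (hsum : (n : ℝ) + 1 < ∑ i, wt (m i))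
    (htr : Algebra.trdeg k K = n) {c : Fin (n + 1) → K} (hc0 : c 0 ≠ 0)
    (hc : IsTranscendenceBasis k (fun j : Fin n => c j.succ / c 0)) (Bd : Place k K → Prop)
    (hP : ∀ P : Place k K, Divisorial n P → ¬ Bd P → ∀ i, pord P c < P.ord (lv (a i) c) →
      m i ≠ 0 ∧ pord P c + m i ≤ P.ord (lv (a i) c)) : LogGeneralType k K n Bd := by
  classical
  -- the number of hyperplanes
  have hq : n + 1 < q := by
    have h1 : ∑ i, wt (m i) ≤ ∑ i : Fin q, (1 : ℝ) :=
      Finset.sum_le_sum fun i _ => wt_le _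
    rw [Finset.sum_const, Finset.card_univ, Fintype.card_fin, nsmul_eq_mul, mul_one] at h1
    have h2 : ((n + 1 : ℕ) : ℝ) < (q : ℝ) := by
      push_cast
      linarith
    exact_mod_cast h2
  have hlne : ∀ i, lv (a i) c ≠ 0 := lv_ne ha hq hc0 hc
  -- the exponents
  obtain ⟨M, hMd⟩ : ∃ M, M = ∏ i, (if m i = 0 then 1 else m i) := ⟨_, rfl⟩
  have hM0 : 0 < M := by
    rw [hMd]
    refine Finset.prod_pos fun i _ => ?_
    split_ifs with h
    · exact one_pos
    · exact Nat.pos_of_ne_zero h
  have hdvd : ∀ i, ∃ r, (m i ≠ 0 → M = m i * r) ∧ (m i = 0 → r = 0) := by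
    intro i
    by_cases h : m i = 0
    · exact ⟨0, fun h' => absurd h h', fun _ => rfl⟩
    · have h1 : m i ∣ M := by
        have h2 := Finset.dvd_prod_of_mem (fun i => if m i = 0 then 1 else m i)
          (Finset.mem_univ i)
        rw [← hMd] at h2
        simpa only [if_neg h] using h2
      obtain ⟨r, hr⟩ := h1
      exact ⟨r, fun _ => hr, fun h' => absurd h' h⟩
  choose r hr hr0 using hdvd
  have hrM : ∀ i, r i ≤ M := fun i => by
    by_cases h : m i = 0
    · rw [hr0 i h]; exact Nat.zero_le _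
    · calc r i = 1 * r i := (one_mul _).symm
        _ ≤ m i * r i := Nat.mul_le_mul_right _ (Nat.one_le_iff_ne_zero.2 h)
        _ = M := (hr i h).symm
  have hwr : ∀ i, ((M - r i : ℕ) : ℝ) = M * wt (m i) := by
    intro i
    unfold wt
    split_ifs with h
    · rw [hr0 i h, Nat.sub_zero, mul_one]
    · have h0 : (m i : ℝ) ≠ 0 := by exact_mod_cast h
      rw [Nat.cast_sub (hrM i), hr i h]
      push_cast
      field_simp
  have hwsum : (n + 1) * M < ∑ i, (M - r i) := by
    have h1 : ((∑ i, (M - r i) : ℕ) : ℝ) = M * ∑ i, wt (m i) := by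
      rw [Nat.cast_sum, Finset.mul_sum]
      exact Finset.sum_congr rfl fun i _ => hwr i
    have h2 : (0 : ℝ) < M := by exact_mod_cast hM0
    have h3 : (((n + 1) * M : ℕ) : ℝ) < ((∑ i, (M - r i) : ℕ) : ℝ) := by
      rw [h1]
      push_cast
      nlinarith
    exact_mod_cast h3
  obtain ⟨E, hE⟩ : ∃ E, (n + 1) * M + (E + 1) = ∑ i, (M - r i) :=
    ⟨∑ i, (M - r i) - (n + 1) * M - 1, by omega⟩
  have hden : ∏ i, lv (a i) c ^ (M - r i) ≠ 0 :=
    Finset.prod_ne_zero_iff.2 fun i _ => pow_ne_zero _ (hlne i)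
  refine ⟨htr, M, hM0, frm a M E (fun i => M - r i) c, fun j A D => ?_,
    fun P _ j D hD => frm_reg ha hq hc0 hlne hrM hr hE P D j (Or.inl hD),
    fun P hPd hPB j D hD => frm_reg ha hq hc0 hlne hrM hr hE P D j
      (Or.inr ⟨hD, hP P hPd hPB⟩), ?_⟩
  · unfold frm
    rw [bw_pluri, mul_pow, mul_assoc, mul_div_assoc]
  · obtain ⟨D, hD⟩ := bw_ne c hc0 hc
    have hne : frm a M E (fun i => M - r i) c 0 D ≠ 0 := by
      unfold frm
      exact div_ne_zero (mul_ne_zero (pow_ne_zero _ hD) (mul_ne_zero (pow_ne_zero _ hc0) hc0)) hden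
    refine ⟨D, hne, ?_⟩
    have h1 : (fun i : Fin n => frm a M E (fun i => M - r i) c i.succ D /
        frm a M E (fun i => M - r i) c 0 D) = fun j : Fin n => c j.succ / c 0 := by
      funext i
      rw [div_eq_iff hne]
      unfold frm
      field_simp
    rw [h1]
    exact hc.1

end Pool.Agent.Q80.HC
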