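import Pool.Agent.Q80.HC.Hyper
import Pool.Agent.Q80.HC.Binary
import Pool.Agent.Q80.HC.LogGT
import Pool.Agent.Q80.HC.Curve
import Pool.Agent.W601.VF.AlgB
import Pool.Agent.W603.CX.Basic
import Pool.Agent.Y193.Fin

/-!
Affine varieties with a generically finite morphism to a projective space which is ramified over
hyperplanes: boundedness, pointed maps, log general type.
-/

set_option autoImplicit false

namespace Pool.Agent.Q80.HC

open FF MvPolynomial Pool.Agent.W603.LV Pool.Agent.W603.PV Pool.Agent.W601.VF Pool.Agent.Y216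
open Pool.Agent.Y193

variable {n q : ℕ}

/-- The functions `h 0, …, h n` on the affine variety `U = Spec A` have no common zeros, so that they
define a morphism from `U` to projective `n`-space, and this morphism is ramified over the hyperplanes
`a i` to the orders `m i`, where `m i = 0` means that the image of `U` does not meet the `i`-th
hyperplane: for every point of `U` with coordinates in a field `M` and every discrete valuation `P` of
`M`, trivial on `ℂ`, at which the point is integral and whose restriction to the `i`-th hyperplane is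
not zero, the contact order is zero or `m i ≠ 0` and the contact order is at least `m i`. -/
def RamA {A : Type} [CommRing A] [Algebra ℂ A] (h : Fin (n + 1) → A) (a : Fin q → Fin (n + 1) → ℂ)
    (m : Fin q → ℕ) : Prop :=
  Ideal.span (Set.range h) = ⊤ ∧
  ∀ (M : Type) [Field M] [Algebra ℂ M] (P : Place ℂ M) (θ : A →ₐ[ℂ] M),
    (∀ f, θ f ≠ 0 → 0 ≤ P.ord (θ f)) → ∀ i, ∑ j, algebraMap ℂ M (a i j) * θ (h j) ≠ 0 →
      P.ord (∑ j, algebraMap ℂ M (a i j) * θ (h j)) = 0 ∨
        (m i ≠ 0 ∧ (m i : ℤ) ≤ P.ord (∑ j, algebraMap ℂ M (a i j) * θ (h j)))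

/-- The morphism given by the `h j` is generically finite onto its image. -/
def GenFinA {A : Type} [CommRing A] [IsDomain A] [Algebra ℂ A] (h : Fin (n + 1) → A) : Prop :=
  ∃ l, h l ≠ 0 ∧ ∀ x : FractionRing A, IsAlgebraic (IntermediateField.adjoin ℂ
    (Set.range fun j => algebraMap A (FractionRing A) (h j) / algebraMap A (FractionRing A) (h l))) x

/-- The height inequality for affine curves. -/
def IneqS (a : Fin q → Fin (n + 1) → ℂ) (m : Fin q → ℕ) (Δ : MvPolynomial (Fin (n + 1)) ℂ)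
    (B : ℕ) : Prop :=
  ∀ (L : Type) [Field L] [Algebra ℂ L] [IsFF ℂ L] (S : Finset (Place ℂ L)) (f : Fin (n + 1) → L),
    (∀ i, lv (a i) f ≠ 0) → aeval f Δ ≠ 0 →
    (∀ P ∉ S, ∀ i, pord P f < P.ord (lv (a i) f) →
      m i ≠ 0 ∧ pord P f + m i ≤ P.ord (lv (a i) f)) →
    pht ℂ f ≤ B * max (canDeg ℂ L + S.card) 0

open Classical in
theorem cnt_le {L : Type} [Field L] [Algebra ℂ L] {a : Fin q → Fin (n + 1) → ℂ} {m : Fin q → ℕ}
    {f : Fin (n + 1) → L} (P : Place ℂ L) (hle : ∀ i, pord P f ≤ P.ord (lv (a i) f))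
    (h : ∀ i, pord P f < P.ord (lv (a i) f) → m i ≠ 0 ∧ pord P f + m i ≤ P.ord (lv (a i) f)) :
    ((Finset.univ.filter fun i => pord P f < P.ord (lv (a i) f)).card : ℝ) ≤
      ∑ i, (1 - wt (m i)) * ((P.ord (lv (a i) f) - pord P f : ℤ) : ℝ) := by
  rw [Finset.card_eq_sum_ones, Nat.cast_sum, Finset.sum_filter]
  refine Finset.sum_le_sum fun i _ => ?_
  have h1 : (0 : ℝ) ≤ ((P.ord (lv (a i) f) - pord P f : ℤ) : ℝ) := by
    exact_mod_cast sub_nonneg.2 (hle i)
  split_ifs with hi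
  · obtain ⟨h2, h3⟩ := h i hi
    have h4 : (1 : ℝ) ≤ m i := by exact_mod_cast Nat.one_le_iff_ne_zero.2 h2
    have h5 : (m i : ℝ) ≤ ((P.ord (lv (a i) f) - pord P f : ℤ) : ℝ) := by
      exact_mod_cast (by linarith : (m i : ℤ) ≤ P.ord (lv (a i) f) - pord P f)
    unfold wt
    rw [if_neg h2, Nat.cast_one]
    have h6 : 1 - (1 - 1 / (m i : ℝ)) = 1 / (m i : ℝ) := by ring
    rw [h6]
    have h7 : 1 / (m i : ℝ) * m i = 1 := by field_simp
    have h8 : (0 : ℝ) ≤ 1 / (m i : ℝ) := by positivity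
    nlinarith
  · exact mul_nonneg (by linarith [wt_le (m i)]) h1

theorem of_real {c b x X : ℝ} (hc : 0 < c) (hX : 0 ≤ X)
    (h : c * x ≤ b * X) {K : ℕ} (hK : b / c ≤ K) : x ≤ K * X := by
  have h1 : x ≤ b / c * X := by
    rw [div_mul_eq_mul_div, le_div_iff₀ hc]
    linarith
  exact h1.trans (mul_le_mul_of_nonneg_right hK hX)

theorem lv_ge {L : Type} [Field L] [Algebra ℂ L] (P : Place ℂ L) (a : Fin (n + 1) → ℂ)
    {f : Fin (n + 1) → L} (h : lv a f ≠ 0) : pord P f ≤ P.ord (lv a f) := by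
  have h1 : Ge P (pord P f) (lv a f) := by
    unfold lv
    refine Ge.sum _ _ fun j _ => ?_
    have h2 := (Ge.const (P := P) (a j)).mul (ge_pord P f j)
    rwa [zero_add] at h2
  exact h1.resolve_left h

/-- The inequality for hyperplanes which impose independent conditions. -/
theorem ineqS_general (hn : 1 ≤ n) {d : ℕ} {a : Fin q → Fin (n + 1) → ℂ} (ha : Ind d a)
    {m : Fin q → ℕ} (hsum : 2 * (((n + d - 1).choose (n - 1) : ℕ) : ℝ) < ∑ i, wt (m i)) :
    ∃ B, IneqS a m 1 B := by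
  classical
  obtain ⟨d', rfl⟩ := pos_degree ha (fun i => wt_le (m i)) hsum hn
  have hnd : n + (d' + 1) - 1 = n + d' := by omega
  rw [hnd] at hsum
  obtain ⟨K, hK⟩ := exists_nat_ge ((((n + d').choose (n - 1) : ℕ) : ℝ) /
    (∑ i, wt (m i) - 2 * (((n + d').choose (n - 1) : ℕ) : ℝ)))
  refine ⟨K, fun L _ _ _ S f hne _ hS => ?_⟩
  have h1 := hyper_pt hn ha (fun i => wt_le (m i)) hsum (f := f) hne S fun P hP =>
    cnt_le P (fun i => lv_ge P (a i) (hne i)) (hS P hP)
  have h2 := of_real (by linarith) (by exact_mod_cast le_max_right _ _) h1 hK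
  exact_mod_cast h2

/-- The inequality for binary forms. -/
theorem ineqS_rnc (hn : 1 ≤ n) {u v : Fin q → ℂ} (huv : ∀ i j, i ≠ j → u i * v j ≠ u j * v i)
    {m : Fin q → ℕ} (hsum : 2 * (n : ℝ) < ∑ i, wt (m i)) :
    ∃ B, IneqS (rnc n u v) m (X (Fin.last n) * discForm ℂ n) B := by
  classical
  obtain ⟨K, hK⟩ := exists_nat_ge ((n : ℝ) / (∑ i, wt (m i) - 2 * (n : ℝ)))
  refine ⟨K, fun L _ _ _ S f hne hΔ hS => ?_⟩
  rw [map_mul, aeval_X] at hΔ
  have hlast := left_ne_zero_of_mul hΔ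
  have hsq := squarefree_of_disc hn hlast (right_ne_zero_of_mul hΔ)
  have h1 := rnc_strong huv (fun i => wt_le (m i)) S hsum hlast hsq hne fun P hP =>
    cnt_le P (fun i => lv_ge P _ (hne i)) (hS P hP)
  have h2 := of_real (by linarith) (by exact_mod_cast le_max_right _ _) h1 hK
  exact_mod_cast h2

section

variable {A : Type} [CommRing A] [Algebra ℂ A]

/-- The functions without common zeros have the minimal order `0` at the points of `U`. -/
theorem pord_unit {h : Fin (n + 1) → A} (hspan : Ideal.span (Set.range h) = ⊤) {M : Type} [Field M]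
    [Algebra ℂ M] (P : Place ℂ M) (θ : A →ₐ[ℂ] M) (hθ : ∀ f, Ge P 0 (θ f)) :
    (∃ l, θ (h l) ≠ 0) ∧ pord P (fun j => θ (h j)) = 0 := by
  have h1 : (1 : A) ∈ Ideal.span (Set.range h) := by rw [hspan]; trivial
  obtain ⟨c, hc⟩ := Ideal.mem_span_range_iff_exists_fun.1 h1
  have h2 : ∑ j, θ (c j) * θ (h j) = 1 := by
    rw [← map_one θ, ← hc, map_sum]
    exact Finset.sum_congr rfl fun j _ => (map_mul θ _ _).symm
  have h3 : ∃ l, θ (h l) ≠ 0 := by
    by_contra hcon
    push Not at hcon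
    rw [Finset.sum_eq_zero fun j _ => by rw [hcon j, mul_zero]] at h2
    exact zero_ne_one h2
  refine ⟨h3, ?_⟩
  obtain ⟨l, hl, hlo⟩ := exists_pord P (f := fun j => θ (h j)) h3
  have h4 : 0 ≤ pord P (fun j => θ (h j)) := by
    rw [← hlo]
    exact (hθ (h l)).resolve_left hl
  refine le_antisymm ?_ h4
  by_contra hcon
  push Not at hcon
  have h5 : Ge P 1 (∑ j, θ (c j) * θ (h j)) := by
    refine Ge.sum _ _ fun j _ => ?_
    have h6 := (hθ (c j)).mul (ge_pord P (fun j => θ (h j)) j)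
    exact h6.mono (by omega)
  rw [h2] at h5
  have h6 := h5.resolve_left one_ne_zero
  rw [P.ord_one] at h6
  omega

theorem RamA.pt {h : Fin (n + 1) → A} {a : Fin q → Fin (n + 1) → ℂ} {m : Fin q → ℕ}
    (hR : RamA h a m) {M : Type} [Field M] [Algebra ℂ M] (P : Place ℂ M) (θ : A →ₐ[ℂ] M)
    (hθ : ∀ f, Ge P 0 (θ f)) (i : Fin q) (hi : lv (a i) (fun j => θ (h j)) ≠ 0)
    (hlt : pord P (fun j => θ (h j)) < P.ord (lv (a i) fun j => θ (h j))) :
    m i ≠ 0 ∧ pord P (fun j => θ (h j)) + m i ≤ P.ord (lv (a i) fun j => θ (h j)) := by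
  rw [(pord_unit hR.1 P θ hθ).2] at hlt ⊢
  rcases hR.2 M P θ (fun f hf => (hθ f).resolve_left hf) i hi with h1 | h1
  · exact absurd h1 hlt.ne'
  · rw [zero_add]
    exact h1

end

section

variable {A : Type} [CommRing A] [IsDomain A] [Algebra ℂ A] [Algebra.FiniteType ℂ A]

/-- **Boundedness.** -/
theorem aff_bounded {a : Fin q → Fin (n + 1) → ℂ} {m : Fin q → ℕ}
    {Δ : MvPolynomial (Fin (n + 1)) ℂ} {B : ℕ} (hB : IneqS a m Δ B) {h : Fin (n + 1) → A}
    (hR : RamA h a m) (hfin : GenFinA h) (hne : ∀ i, ∑ j, algebraMap ℂ A (a i j) * h j ≠ 0)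
    (hΔ : aeval h Δ ≠ 0) : ∃ J : Ideal A, J ≠ ⊥ ∧ BoundedModulo A J := by
  classical
  obtain ⟨l, hl, halg⟩ := hfin
  obtain ⟨s, hs⟩ := (inferInstance : Algebra.FiniteType ℂ A).out
  obtain ⟨g, hg, B0, E, hE⟩ := alg_bound.{0, 0, 0, 0, 0, 0} (k := ℂ) (F := ℂ) (A := A) h
    (fun _ => h l) (fun _ => hl) (fun j : s => (j : A)) (fun _ => 1) (fun _ => one_ne_zero)
    (fun j => halg _)
  obtain ⟨G, hG⟩ : ∃ G : A, G = g * h l * (aeval h Δ * ∏ i, ∑ j, algebraMap ℂ A (a i j) * h j) :=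
    ⟨_, rfl⟩
  have hG0 : G ≠ 0 := by
    rw [hG]
    exact mul_ne_zero (mul_ne_zero hg hl)
      (mul_ne_zero hΔ (Finset.prod_ne_zero_iff.2 fun i _ => hne i))
  refine ⟨Ideal.span {G}, fun h0 => hG0 (Ideal.span_singleton_eq_bot.1 h0), ?_⟩
  intro R _ _ _ _ x
  by_cases hRf : IsField R
  · have h1 : Module.Finite ℂ R := by
      let := hRf.toField
      exact finite_of_finite_type_of_isJacobsonRing ℂ R
    infer_instance
  have hFF := isFF_frac hRf
  obtain ⟨S, hS⟩ := exists_places (B := R)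
  let ι : R →ₐ[ℂ] FractionRing R := IsScalarTower.toAlgHom ℂ R (FractionRing R)
  have hι : Function.Injective ι := IsFractionRing.injective R (FractionRing R)
  have hSι : ∀ P ∉ S, ∀ b : R, Ge P 0 (ι b) := hS
  obtain ⟨X0, hX0⟩ : ∃ X0 : ℤ, X0 = B * max (canDeg ℂ (FractionRing R) + S.card) 0 := ⟨_, rfl⟩
  have hX00 : 0 ≤ X0 := by
    rw [hX0]
    exact mul_nonneg (by positivity) (le_max_right _ _)
  have key : ∀ φ : A →ₐ[ℂ] R, ¬ Ideal.span {G} ≤ RingHom.ker φ → ∀ x ∈ s,
      ∀ P : Place ℂ (FractionRing R), Ge P (-(B0 * X0)) (ι (φ x)) := by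
    intro φ hφ x hx P
    have hφG : φ G ≠ 0 := by
      intro h0
      apply hφ
      rw [Ideal.span_singleton_le_iff_mem, RingHom.mem_ker]
      exact h0
    let θ : A →ₐ[ℂ] FractionRing R := ι.comp φ
    have hθG : θ G ≠ 0 := fun h0 => hφG (hι (by rw [map_zero]; exact h0))
    rw [hG, map_mul, map_mul, map_mul, map_prod] at hθG
    have hθg : θ g ≠ 0 := left_ne_zero_of_mul (left_ne_zero_of_mul hθG)
    have hθl : θ (h l) ≠ 0 := right_ne_zero_of_mul (left_ne_zero_of_mul hθG)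
    have hθΔ : aeval (fun j => θ (h j)) Δ ≠ 0 := by
      have h1 := left_ne_zero_of_mul (right_ne_zero_of_mul hθG)
      rwa [← AlgHom.comp_apply, comp_aeval] at h1
    have hθa : ∀ i, lv (a i) (fun j => θ (h j)) ≠ 0 := by
      intro i
      have h1 := Finset.prod_ne_zero_iff.1 (right_ne_zero_of_mul (right_ne_zero_of_mul hθG)) i
        (Finset.mem_univ i)
      rw [map_sum] at h1
      simp only [map_mul, AlgHom.commutes] at h1
      exact h1
    have h1 := hB (FractionRing R) S (fun j => θ (h j)) hθa hθΔ fun P hP i hi =>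
      hR.pt P θ (fun f => hSι P hP (φ f)) i (hθa i) hi
    rw [← hX0] at h1
    have h2 := (hE (FractionRing R) θ hθg X0 hX00 (fun i => by
      by_cases h3 : θ (h i) = 0
      · rw [h3, zero_div, hgt_zero]
        exact hX00
      · exact (Pool.Agent.W603.CX.hgt_le_pht (k := ℂ) (fun j => θ (h j)) h3 hθl).trans h1)
      ⟨x, hx⟩).2
    have h3 : ∑ c ∈ E, hgt ℂ (algebraMap ℂ (FractionRing R) c) = 0 :=
      Finset.sum_eq_zero fun c _ => hgt_const _ c
    rw [h3, mul_zero, add_zero, map_one, div_one] at h2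
    right
    have h4 := neg_ord_le (k := ℂ) (θ x) P
    change _ ≤ P.ord (θ x)
    linarith
  -- all the functions
  obtain ⟨C', hC'0, hC'⟩ : ∃ C' : ℤ, 0 ≤ C' ∧ ∀ φ : A →ₐ[ℂ] R,
      ¬ Ideal.span {G} ≤ RingHom.ker φ → ∀ P : Place ℂ (FractionRing R),
        Ge P (-C') (ι (φ x)) := by
    have hx : x ∈ Algebra.adjoin ℂ (s : Set A) := by rw [hs]; exact Algebra.mem_top
    induction hx using Algebra.adjoin_induction with
    | mem x hx =>
      exact ⟨B0 * X0, mul_nonneg (by positivity) hX00, fun φ hφ P => key φ hφ x hx P⟩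
    | algebraMap c =>
      refine ⟨0, le_rfl, fun φ hφ P => ?_⟩
      rw [AlgHom.commutes, AlgHom.commutes, neg_zero]
      exact Ge.const c
    | add x z hx hz ihx ihz =>
      obtain ⟨C1, hC1, h1⟩ := ihx
      obtain ⟨C2, hC2, h2⟩ := ihz
      refine ⟨max C1 C2, le_max_of_le_left hC1, fun φ hφ P => ?_⟩
      rw [map_add, map_add]
      exact ((h1 φ hφ P).mono (neg_le_neg (le_max_left _ _))).add
        ((h2 φ hφ P).mono (neg_le_neg (le_max_right _ _)))
    | mul x z hx hz ihx ihz =>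
      obtain ⟨C1, hC1, h1⟩ := ihx
      obtain ⟨C2, hC2, h2⟩ := ihz
      refine ⟨C1 + C2, by omega, fun φ hφ P => ?_⟩
      rw [map_mul, map_mul]
      have h4 := (h1 φ hφ P).mul (h2 φ hφ P)
      rwa [← neg_add] at h4
  refine bounded_span hS _ C' ?_
  rintro b ⟨φ, hφ, rfl⟩ P
  exact hC' φ hφ P

omit [Algebra.FiniteType ℂ A] in
/-- **Log general type.** -/
theorem aff_lgt {a : Fin q → Fin (n + 1) → ℂ} (ha : GenPos a) {m : Fin q → ℕ}
    (hsum : (n : ℝ) + 1 < ∑ i, wt (m i)) {h : Fin (n + 1) → A} (hR : RamA h a m)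
    (h0 : h 0 ≠ 0) (hb : IsTranscendenceBasis ℂ (fun j : Fin n =>
      algebraMap A (FractionRing A) (h j.succ) / algebraMap A (FractionRing A) (h 0))) :
    Pool.Agent.W602.GT.LogGeneralType ℂ (FractionRing A) n
      (fun P => ∃ f : A, algebraMap A (FractionRing A) f ≠ 0 ∧
        P.ord (algebraMap A (FractionRing A) f) < 0) := by
  have hq : n + 1 < q := by
    have h1 : ∑ i, wt (m i) ≤ ∑ i : Fin q, (1 : ℝ) :=
      Finset.sum_le_sum fun i _ => wt_le _
    rw [Finset.sum_const, Finset.card_univ, Fintype.card_fin, nsmul_eq_mul, mul_one] at h1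
    have h2 : ((n + 1 : ℕ) : ℝ) < (q : ℝ) := by
      push_cast
      linarith
    exact_mod_cast h2
  have hc0 : algebraMap A (FractionRing A) (h 0) ≠ 0 := fun h1 =>
    h0 (IsFractionRing.injective A (FractionRing A) (by rw [h1, map_zero]))
  have htr : Algebra.trdeg ℂ (FractionRing A) = n := by
    have h1 := hb.cardinalMk_eq_trdeg
    rw [← h1]
    simp
  refine lgt_main ha hsum htr (c := fun j => algebraMap A (FractionRing A) (h j)) hc0 hb _
    fun P _ hP i hi => ?_
  push Not at hP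
  let ι : A →ₐ[ℂ] FractionRing A := IsScalarTower.toAlgHom ℂ A (FractionRing A)
  refine hR.pt P ι (fun f => ?_) i
    (lv_ne ha hq (c := fun j => algebraMap A (FractionRing A) (h j)) hc0 hb i) hi
  by_cases hf : ι f = 0
  · exact Or.inl hf
  · exact Or.inr (hP f hf)

end

end Pool.Agent.Q80.HC
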