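import Pool.Agent.Q80.HC.Aff
import Pool.Agent.Y216.EcE
import Pool.Agent.W601.PH.Quasi

/-!
Affine varieties with a generically finite morphism to a projective space which is ramified over
hyperplanes: entire curves.
-/

set_option autoImplicit false

namespace Pool.Agent.Q80.HC

open MvPolynomial Pool.Agent.Y216 Pool.Agent.W602.Cov.R
open FF (Place)
open Pool.Agent.W603.LV (Ge)
open Pool.Agent.W919.RC.RCV

variable {n q : ℕ}

/-- Condition 2 for `U = Spec A` and `Δ = V(J)`: all entire curves in `U` lie in `Δ`. A holomorphic map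
from `ℂ` to `U` is given by the homomorphism `θ` which maps a regular function on `U` to its
composition with the map. -/
def BrodyModulo (A : Type) [CommRing A] [Algebra ℂ A] (J : Ideal A) : Prop :=
  ∀ θ : A →ₐ[ℂ] (ℂ → ℂ), (∀ f, Differentiable ℂ (θ f)) → (∃ f z w, θ f z ≠ θ f w) →
    ∀ f ∈ J, ∀ z, θ f z = 0

/-- The degeneracy of the entire curves in projective space. -/
def IneqE (a : Fin q → Fin (n + 1) → ℂ) (m : Fin q → ℕ) (Δ : MvPolynomial (Fin (n + 1)) ℂ) : Prop :=
  ∀ v : ℂ → Fin (n + 1) → ℂ, (∀ j, Differentiable ℂ fun z => v z j) → (∀ z, v z ≠ 0) →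
    (∀ i, ∃ z, ∑ j, a i j * v z j ≠ 0) → (∃ z, eval (v z) Δ ≠ 0) →
    (∀ z i, analyticOrderAt (fun w => ∑ j, a i j * v w j) z = 0 ∨
      (m i ≠ 0 ∧ (m i : ℕ∞) ≤ analyticOrderAt (fun w => ∑ j, a i j * v w j) z)) →
    ∀ z z', ∃ t : ℂ, v z' = t • v z

section

variable {A : Type} [CommRing A] [Algebra ℂ A]

/-- clearing denominators -/
theorem clear (h : Fin (n + 1) → A) (l : Fin (n + 1)) (c : MvPolynomial (Fin (n + 1)) ℂ) :
    ∃ (N : ℕ) (H : A), ∀ (L : Type) [Field L] [Algebra ℂ L] (θ : A →ₐ[ℂ] L), θ (h l) ≠ 0 →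
      θ H = θ (h l) ^ N * aeval (fun j => θ (h j) / θ (h l)) c := by
  induction c using MvPolynomial.induction_on with
  | C x =>
    refine ⟨0, algebraMap ℂ A x, fun L _ _ θ _ => ?_⟩
    rw [AlgHom.commutes, aeval_C, pow_zero, one_mul]
  | add p r hp hr =>
    obtain ⟨N1, H1, h1⟩ := hp
    obtain ⟨N2, H2, h2⟩ := hr
    refine ⟨N1 + N2, h l ^ N2 * H1 + h l ^ N1 * H2, fun L _ _ θ hl => ?_⟩
    rw [map_add, map_mul, map_mul, map_pow, map_pow, h1 L θ hl, h2 L θ hl, map_add]
    ring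
  | mul_X p j hp =>
    obtain ⟨N, H, h1⟩ := hp
    refine ⟨N + 1, H * h j, fun L _ _ θ hl => ?_⟩
    rw [map_mul, h1 L θ hl, map_mul, aeval_X]
    field_simp
    ring

theorem alg_const [IsDomain A] {h : Fin (n + 1) → A} {l : Fin (n + 1)} (hl : h l ≠ 0) (y : A)
    (halg : IsAlgebraic (IntermediateField.adjoin ℂ (Set.range fun j =>
      algebraMap A (FractionRing A) (h j) / algebraMap A (FractionRing A) (h l)))
      (algebraMap A (FractionRing A) y)) :
    ∃ g : A, g ≠ 0 ∧ ∀ (L : Type) [Field L] [Algebra ℂ L] (θ : A →ₐ[ℂ] L), θ g ≠ 0 →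
      θ (h l) ≠ 0 → (∀ j, ∃ c : ℂ, θ (h j) = algebraMap ℂ L c * θ (h l)) →
        ∃ c : ℂ, θ y = algebraMap ℂ L c := by
  classical
  obtain ⟨D, c, hc, hrel⟩ := Pool.Agent.W603.PV.exists_rel' _ _ halg
  let ι : A →ₐ[ℂ] FractionRing A := IsScalarTower.toAlgHom ℂ A (FractionRing A)
  have hι : Function.Injective ι := IsFractionRing.injective A (FractionRing A)
  have hιl : ι (h l) ≠ 0 := fun h0 => hl (hι (by rw [h0, map_zero]))
  choose N H hH using fun d => clear h l (c d)
  have hg : H D ≠ 0 := by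
    intro h0
    have h1 := hH D (FractionRing A) ι hιl
    rw [h0, map_zero] at h1
    exact (mul_ne_zero (pow_ne_zero _ hιl) hc) h1.symm
  obtain ⟨M, hM⟩ : ∃ M : ℕ, ∀ d ∈ Finset.range (D + 1), N d ≤ M :=
    ⟨∑ d ∈ Finset.range (D + 1), N d, fun d hd => Finset.single_le_sum (f := N)
      (fun _ _ => Nat.zero_le _) hd⟩
  have hR : ∑ d ∈ Finset.range (D + 1), h l ^ (M - N d) * H d * y ^ d = 0 := by
    apply hι
    rw [map_sum, map_zero]
    have h1 : ∀ d ∈ Finset.range (D + 1), ι (h l ^ (M - N d) * H d * y ^ d) =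
        ι (h l) ^ M * (aeval (fun j => ι (h j) / ι (h l)) (c d) * ι y ^ d) := by
      intro d hd
      rw [map_mul, map_mul, map_pow, map_pow, hH d (FractionRing A) ι hιl, ← mul_assoc,
        ← pow_add, Nat.sub_add_cancel (hM d hd), mul_assoc]
    rw [Finset.sum_congr rfl h1, ← Finset.mul_sum]
    exact mul_eq_zero_of_right _ hrel
  refine ⟨H D, hg, fun L _ _ θ hθg hθl hcst => ?_⟩
  choose r hr using hcst
  have hrat : (fun j => θ (h j) / θ (h l)) = fun j => algebraMap ℂ L (r j) := by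
    funext j
    rw [hr j, mul_div_assoc, div_self hθl, mul_one]
  have hev : ∀ d, aeval (fun j => θ (h j) / θ (h l)) (c d) = algebraMap ℂ L (eval r (c d)) := by
    intro d
    rw [hrat]
    have h1 : (Algebra.ofId ℂ L).comp (aeval r) = aeval (fun j => algebraMap ℂ L (r j)) := by
      apply MvPolynomial.algHom_ext
      intro j
      rw [AlgHom.comp_apply, aeval_X, aeval_X]
      rfl
    rw [← h1]
    rfl
  have h2 : ∑ d ∈ Finset.range (D + 1), algebraMap ℂ L (eval r (c d)) * θ y ^ d = 0 := by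
    have h3 := congrArg θ hR
    rw [map_sum, map_zero] at h3
    have h4 : ∀ d ∈ Finset.range (D + 1), θ (h l ^ (M - N d) * H d * y ^ d) =
        θ (h l) ^ M * (algebraMap ℂ L (eval r (c d)) * θ y ^ d) := by
      intro d hd
      rw [map_mul, map_mul, map_pow, map_pow, hH d L θ hθl, ← mul_assoc,
        ← pow_add, Nat.sub_add_cancel (hM d hd), mul_assoc, hev]
    rw [Finset.sum_congr rfl h4, ← Finset.mul_sum] at h3
    exact (mul_eq_zero.1 h3).resolve_left (pow_ne_zero _ hθl)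
  have hlead : eval r (c D) ≠ 0 := by
    intro h0
    apply hθg
    rw [hH D L θ hθl, hev, h0, map_zero, mul_zero]
  have halg' : IsAlgebraic ℂ (θ y) := by
    refine ⟨∑ d ∈ Finset.range (D + 1), Polynomial.C (eval r (c d)) * Polynomial.X ^ d, ?_, ?_⟩
    · intro h0
      apply hlead
      have h5 := congrArg (fun p => Polynomial.coeff p D) h0
      simp only [Polynomial.finsetSum_coeff, Polynomial.coeff_C_mul_X_pow,
        Polynomial.coeff_zero] at h5
      rw [Finset.sum_eq_single D] at h5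
      · simpa using h5
      · intro d _ hd
        rw [if_neg (Ne.symm hd)]
      · intro h6
        exact absurd (Finset.self_mem_range_succ D) h6
    · rw [map_sum, ← h2]
      refine Finset.sum_congr rfl fun d _ => ?_
      rw [map_mul, map_pow, Polynomial.aeval_C, Polynomial.aeval_X]
  have h6 := minpoly.mem_range_of_degree_eq_one ℂ (θ y)
    (IsAlgClosed.degree_eq_one_of_irreducible ℂ (minpoly.irreducible halg'.isIntegral))
  obtain ⟨x, hx⟩ := h6
  exact ⟨x, hx.symm⟩

end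

section

variable {A : Type} [CommRing A] [IsDomain A] [Algebra ℂ A] [Algebra.FiniteType ℂ A]

/-- **Entire curves.** -/
theorem aff_brody {a : Fin q → Fin (n + 1) → ℂ} {m : Fin q → ℕ}
    {Δ : MvPolynomial (Fin (n + 1)) ℂ} (hE : IneqE a m Δ) {h : Fin (n + 1) → A}
    (hR : RamA h a m) (hfin : GenFinA h) (hne : ∀ i, ∑ j, algebraMap ℂ A (a i j) * h j ≠ 0)
    (hΔ : aeval h Δ ≠ 0) : ∃ J : Ideal A, J ≠ ⊥ ∧ BrodyModulo A J := by
  classical
  obtain ⟨l, hl, halg⟩ := hfin
  obtain ⟨s, hs⟩ := (inferInstance : Algebra.FiniteType ℂ A).out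
  choose g hg hgc using fun y : A => alg_const hl y (halg (algebraMap A (FractionRing A) y))
  obtain ⟨G, hG⟩ : ∃ G : A, G = (∏ y ∈ s, g y) * h l *
      (aeval h Δ * ∏ i, ∑ j, algebraMap ℂ A (a i j) * h j) := ⟨_, rfl⟩
  have hG0 : G ≠ 0 := by
    rw [hG]
    exact mul_ne_zero (mul_ne_zero (Finset.prod_ne_zero_iff.2 fun y _ => hg y) hl)
      (mul_ne_zero hΔ (Finset.prod_ne_zero_iff.2 fun i _ => hne i))
  refine ⟨Ideal.span {G}, fun h0 => hG0 (Ideal.span_singleton_eq_bot.1 h0), ?_⟩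
  intro θ hd hnc
  suffices hθ : θ G = 0 by
    intro f hf z
    obtain ⟨b, rfl⟩ := Ideal.mem_span_singleton'.1 hf
    rw [map_mul, hθ, mul_zero]
    rfl
  by_contra hθG
  let θ' : A →ₐ[ℂ] Ent := θ.codRestrict Ent fun f => hd f
  have hθ' : ∀ f z, (θ' f : ℂ → ℂ) z = θ f z := fun _ _ => rfl
  have hGne : θ' G ≠ 0 := by
    intro h0
    apply hθG
    exact congrArg Subtype.val h0
  rw [hG, map_mul, map_mul, map_mul, map_prod, map_prod] at hGne
  have hθg : ∀ y ∈ s, θ' (g y) ≠ 0 := Finset.prod_ne_zero_iff.1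
    (left_ne_zero_of_mul (left_ne_zero_of_mul hGne))
  have hθl : θ' (h l) ≠ 0 := right_ne_zero_of_mul (left_ne_zero_of_mul hGne)
  have hθΔ : θ' (aeval h Δ) ≠ 0 := left_ne_zero_of_mul (right_ne_zero_of_mul hGne)
  have hθa : ∀ i, θ' (∑ j, algebraMap ℂ A (a i j) * h j) ≠ 0 := fun i =>
    Finset.prod_ne_zero_iff.1 (right_ne_zero_of_mul (right_ne_zero_of_mul hGne)) i
      (Finset.mem_univ i)
  have hex : ∀ f : Ent, f ≠ 0 → ∃ z, (f : ℂ → ℂ) z ≠ 0 := by
    intro f hf
    by_contra hcon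
    push Not at hcon
    exact hf (Subtype.ext (funext hcon))
  -- the curve in projective space
  obtain ⟨v, hv⟩ : ∃ v : ℂ → Fin (n + 1) → ℂ, v = fun z j => θ (h j) z := ⟨_, rfl⟩
  have hsumv : ∀ i z, θ (∑ j, algebraMap ℂ A (a i j) * h j) z = ∑ j, a i j * v z j := by
    intro i z
    rw [map_sum, Finset.sum_apply, hv]
    refine Finset.sum_congr rfl fun j _ => ?_
    rw [map_mul, AlgHom.commutes]
    rfl
  have hvd : ∀ j, Differentiable ℂ fun z => v z j := by
    intro j
    rw [hv]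
    exact hd (h j)
  have hv0 : ∀ z, v z ≠ 0 := by
    intro z h0
    have h1 : (1 : A) ∈ Ideal.span (Set.range h) := by rw [hR.1]; trivial
    obtain ⟨c, hc⟩ := Ideal.mem_span_range_iff_exists_fun.1 h1
    have h2 : θ 1 z = 1 := by rw [map_one]; rfl
    rw [← hc, map_sum, Finset.sum_apply] at h2
    rw [Finset.sum_eq_zero fun j _ => ?_] at h2
    · exact zero_ne_one h2
    · rw [map_mul, Pi.mul_apply]
      have h3 : θ (h j) z = 0 := by
        have := congrFun h0 j
        rw [hv] at this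
        exact this
      rw [h3, mul_zero]
  have hprop := hE v hvd hv0 (fun i => by
      obtain ⟨z, hz⟩ := hex _ (hθa i)
      exact ⟨z, by rwa [hθ', hsumv] at hz⟩) (by
      obtain ⟨z, hz⟩ := hex _ hθΔ
      refine ⟨z, ?_⟩
      rw [hθ'] at hz
      have h1 : θ (aeval h Δ) z = eval (v z) Δ := by
        have h2 : ((Pi.evalAlgHom ℂ (fun _ : ℂ => ℂ) z).comp θ).comp (aeval h) =
            aeval (v z) := by
          apply MvPolynomial.algHom_ext
          intro j
          rw [AlgHom.comp_apply, aeval_X, aeval_X, hv]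
          rfl
        have h3 := congrArg (fun φ : MvPolynomial (Fin (n + 1)) ℂ →ₐ[ℂ] ℂ => φ Δ) h2
        exact h3.trans (by rw [aeval_def]; rfl)
      rwa [h1] at hz) (by
      intro z i
      obtain ⟨L, _, _, P, T, hT, hord⟩ := Pool.Agent.W727.RC.EPL.main z
      have hTne : ∀ f : Ent, f ≠ 0 → T f ≠ 0 := fun f hf h0 => hf (hT (by rw [h0, map_zero]))
      have h1 := hR.2 L P (T.comp θ') (fun f hf => by
        rw [AlgHom.comp_apply] at hf ⊢
        have h2 : θ' f ≠ 0 := fun h0 => hf (by rw [h0, map_zero])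
        rw [(hord _ h2).2]
        exact Int.natCast_nonneg _) i
      have h3 : ∑ j, algebraMap ℂ L (a i j) * (T.comp θ') (h j) =
          T (θ' (∑ j, algebraMap ℂ A (a i j) * h j)) := by
        rw [map_sum, map_sum]
        refine Finset.sum_congr rfl fun j _ => ?_
        rw [map_mul, map_mul, AlgHom.commutes, AlgHom.commutes]
        rfl
      rw [h3] at h1
      have h4 := h1 (hTne _ (hθa i))
      obtain ⟨h5, h6⟩ := hord _ (hθa i)
      rw [h6] at h4
      have h7 : ((θ' (∑ j, algebraMap ℂ A (a i j) * h j) : Ent) : ℂ → ℂ) =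
          fun w => ∑ j, a i j * v w j := by
        funext w
        rw [hθ', hsumv]
      rw [h7] at h4 h5
      obtain ⟨o, ho⟩ := ENat.ne_top_iff_exists.1 h5
      rw [← ho] at h4 ⊢
      simp only [ENat.toNat_natCast] at h4
      rcases h4 with h4 | h4
      · left
        have h8 : o = 0 := by exact_mod_cast h4
        rw [h8, Nat.cast_zero]
      · right
        exact ⟨h4.1, by exact_mod_cast h4.2⟩)
  -- the curve is constant
  obtain ⟨z0, hz0⟩ := hex _ hθl
  have hz0' : v z0 l ≠ 0 := by rw [hv]; exact hz0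
  obtain ⟨L, _, _, P, T, hT, -⟩ := Pool.Agent.W727.RC.EPL.main 0
  have hTne : ∀ f : Ent, f ≠ 0 → T f ≠ 0 := fun f hf h0 => hf (hT (by rw [h0, map_zero]))
  have hcst : ∀ j, ∃ c : ℂ, (T.comp θ') (h j) = algebraMap ℂ L c * (T.comp θ') (h l) := by
    intro j
    refine ⟨v z0 j / v z0 l, ?_⟩
    rw [AlgHom.comp_apply, AlgHom.comp_apply, ← T.commutes, ← map_mul]
    congr 1
    apply ext_ent
    intro z
    rw [map_mul, AlgHom.commutes]
    have e1 : ∀ j, evz z (θ' (h j)) = v z j := by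
      intro j
      rw [hv]
      rfl
    rw [e1, e1]
    obtain ⟨t, ht⟩ := hprop z0 z
    rw [ht, Pi.smul_apply, Pi.smul_apply, smul_eq_mul, smul_eq_mul]
    change _ = v z0 j / v z0 l * _
    field_simp
  have hall : ∀ y ∈ s, ∃ c : ℂ, θ' y = algebraMap ℂ Ent c := by
    intro y hy
    obtain ⟨c, hc⟩ := hgc y L (T.comp θ') (hTne _ (hθg y hy)) (hTne _ hθl) hcst
    refine ⟨c, hT ?_⟩
    rw [T.commutes]
    exact hc
  obtain ⟨f, z, w, hf⟩ := hnc
  apply hf
  have hfs : f ∈ Algebra.adjoin ℂ (s : Set A) := by rw [hs]; exact Algebra.mem_top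
  clear hf
  induction hfs using Algebra.adjoin_induction with
  | mem x hx =>
    obtain ⟨c, hc⟩ := hall x hx
    rw [← hθ', ← hθ', hc]
    rfl
  | algebraMap c =>
    rw [AlgHom.commutes]
    rfl
  | add x y _ _ hx hy =>
    rw [map_add, Pi.add_apply, Pi.add_apply, hx, hy]
  | mul x y _ _ hx hy =>
    rw [map_mul, Pi.mul_apply, Pi.mul_apply, hx, hy]

end

end Pool.Agent.Q80.HC
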