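import Pool.Agent.Q80.HC.Pointed
import Pool.Agent.W601.VF.Cov4

/-!
General hyperplanes are in general position and impose independent conditions on forms.
-/

set_option autoImplicit false

namespace Pool.Agent.Q80.HC

open MvPolynomial Pool.Agent.Y216 Pool.Agent.W601.VF

variable {k : Type} [Field k]

/-- Hyperplanes outside a proper closed subset are in general position. -/
theorem generic_genPos (n q : ℕ) : ∃ Ψ : MvPolynomial (Fin q × Fin (n + 1)) k, Ψ ≠ 0 ∧
    ∀ ℓ : Fin q → Fin (n + 1) → k, eval (fun x => ℓ x.1 x.2) Ψ ≠ 0 → GenPos ℓ := by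
  classical
  let M : {s : Fin (n + 1) → Fin q // Function.Injective s} →
      Matrix (Fin (n + 1)) (Fin (n + 1)) (MvPolynomial (Fin q × Fin (n + 1)) k) :=
    fun s => Matrix.of fun i j => X (s.1 i, j)
  have hMa : ∀ s i j, M s i j = X (s.1 i, j) := fun s i j => rfl
  have hM : ∀ s, (M s).det ≠ 0 := by
    intro s h0
    let ℓ : Fin q × Fin (n + 1) → k := fun x => if s.1 x.2 = x.1 then 1 else 0
    have h1 : (eval ℓ) (M s).det = 1 := by
      rw [RingHom.map_det]
      have h2 : (eval ℓ).mapMatrix (M s) = 1 := by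
        ext i j
        rw [RingHom.mapMatrix_apply, Matrix.map_apply, hMa, eval_X, Matrix.one_apply]
        simp only [ℓ]
        by_cases h : i = j
        · rw [if_pos (by rw [h]), if_pos h]
        · rw [if_neg fun h' => h (s.2 h').symm, if_neg h]
      rw [h2, Matrix.det_one]
    rw [h0, map_zero] at h1
    exact zero_ne_one h1
  refine ⟨∏ s, (M s).det, Finset.prod_ne_zero_iff.2 fun s _ => hM s, fun ℓ hℓ s hs => ?_⟩
  rw [map_prod] at hℓ
  have h1 := Finset.prod_ne_zero_iff.1 hℓ ⟨s, hs⟩ (Finset.mem_univ _)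
  rw [RingHom.map_det] at h1
  have h2 : (eval fun x : Fin q × Fin (n + 1) => ℓ x.1 x.2).mapMatrix (M ⟨s, hs⟩) =
      Matrix.of fun i => ℓ (s i) := by
    ext i j
    rw [RingHom.mapMatrix_apply, Matrix.map_apply, hMa, eval_X]
    rfl
  rw [h2] at h1
  exact Matrix.linearIndependent_rows_iff_isUnit.2
    ((Matrix.isUnit_iff_isUnit_det _).2 (isUnit_iff_ne_zero.2 h1))

/-- For `q > C(5 n, n)` general hyperplanes and the multiplicities `m i ≥ 2`. -/
theorem generic_two [CharZero k] (n : ℕ) (hn : 1 ≤ n) (q : ℕ) (hq : (5 * n).choose n < q) :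
    ∃ d : ℕ, ∃ Ψ : MvPolynomial (Fin q × Fin (n + 1)) k, Ψ ≠ 0 ∧
      ∀ a : Fin q → Fin (n + 1) → k, eval (fun x => a x.1 x.2) Ψ ≠ 0 → Ind d a ∧ GenPos a ∧
        ∀ m : Fin q → ℕ, (∀ i, 2 ≤ m i) →
          2 * (((n + d - 1).choose (n - 1) : ℕ) : ℝ) < ∑ i, (1 - 1 / (m i : ℝ)) := by
  obtain ⟨d, h1, h2⟩ := numbers2 n hn (1 / 2) (by norm_num) (4 * n) q (by push_cast; linarith)
    (by rwa [show n + 4 * n = 5 * n by ring])
  obtain ⟨Ψ1, h3, h4⟩ := generic (κ := k) h1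
  obtain ⟨Ψ2, h5, h6⟩ := generic_genPos (k := k) n q
  refine ⟨d, Ψ1 * Ψ2, mul_ne_zero h3 h5, fun a ha => ?_⟩
  rw [map_mul] at ha
  refine ⟨h4 a (left_ne_zero_of_mul ha), h6 a (right_ne_zero_of_mul ha), fun m hm => ?_⟩
  refine lt_of_lt_of_le h2 ?_
  have h7 : ∑ _i : Fin q, (1 / 2 : ℝ) ≤ ∑ i, (1 - 1 / (m i : ℝ)) := by
    refine Finset.sum_le_sum fun i _ => ?_
    have h8 : (2 : ℝ) ≤ m i := by exact_mod_cast hm i
    have h9 : 1 / (m i : ℝ) ≤ 1 / 2 := one_div_le_one_div_of_le (by norm_num) h8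
    linarith
  rw [Finset.sum_const, Finset.card_univ, Fintype.card_fin, nsmul_eq_mul] at h7
  exact h7

end Pool.Agent.Q80.HC
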