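import Pool.Agent.W601.VF.Cov4
import Pool.Agent.W619.TW.Hyp
import Pool.Agent.W619.PQ.Curve

/-!
Degrees of curves in constant varieties with a generically finite map to a projective space which is
ramified, outside a divisor, over hyperplanes.
-/

set_option autoImplicit false

namespace Pool.Agent.Q80.HC

open FF MvPolynomial Pool.Agent.W603.LV Pool.Agent.W603.PV Pool.Agent.W601.VF

variable {k : Type} [Field k] {N n : ℕ}

open Classical in
/-- The map given by the forms `φ` from the projective variety `X` with the ideal `p` is ramified,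
outside the divisor `Q = 0`, over the hyperplanes `ℓ i`, with the weights `w i`: for every point `x`
of `X` over the function field `L` of a curve, which is not in the divisor and whose image is in none
of the hyperplanes, at every place of `L` at which `x` does not meet the divisor, the multiplicities
`a i` with which the image of `x` meets the hyperplanes satisfy `#{i | a i > 0} ≤ ∑ i, (1 - w i) * a i`.
For instance `w i = 1` if the hyperplane `ℓ i` is not met outside the divisor, and `w i = 1 - 1 / m` if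
it is met with multiplicities at least `m` only. -/
def RamC (p : Ideal (MvPolynomial (Fin (N + 1)) k)) (Q : MvPolynomial (Fin (N + 1)) k) (e : ℕ)
    (φ : Fin (n + 1) → MvPolynomial (Fin (N + 1)) k) {q : ℕ} (ℓ : Fin q → Fin (n + 1) → k)
    (w : Fin q → ℝ) : Prop :=
  ∀ (L : Type) [Field L] [Algebra k L] [IsFF k L] (x : Fin (N + 1) → L), IsPt p x →
    aeval x Q ≠ 0 → (∀ i, aeval x (lform φ (ℓ i)) ≠ 0) → ∀ P : Place k L,
    P ∉ meets (k := k) Q e x →
    ((Finset.univ.filter fun i => 0 < cont P φ (ℓ i) x).card : ℝ) ≤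
      ∑ i, (1 - w i) * (cont P φ (ℓ i) x : ℝ)

/-- The height inequality for the image points outside the hypersurface `Δ = 0`. -/
def ImgC (p : Ideal (MvPolynomial (Fin (N + 1)) k)) (Q : MvPolynomial (Fin (N + 1)) k) (e : ℕ)
    (φ : Fin (n + 1) → MvPolynomial (Fin (N + 1)) k) {q : ℕ} (ℓ : Fin q → Fin (n + 1) → k)
    (w : Fin q → ℝ) (b : ℕ) (Δ : MvPolynomial (Fin (n + 1)) k) : Prop :=
  ∀ (L : Type) [Field L] [Algebra k L] [IsFF k L] (x : Fin (N + 1) → L), IsPt p x →
    aeval x Q ≠ 0 → (∀ i, aeval x (lform φ (ℓ i)) ≠ 0) → aeval (img φ x) Δ ≠ 0 →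
    (∑ i, w i - 2 * (b : ℝ)) * (pht k (img φ x) : ℝ) ≤
      (b : ℝ) * ((max (canDeg k L + (meets (k := k) Q e x).ncard) 0 : ℤ) : ℝ)

/-- The degree bound for the curves in the complement of the divisor `Q = 0` in the projective variety
with the homogeneous prime ideal `p`: there are a proper closed subset `G = 0` of the variety,
containing the divisor, and a constant `B`, such that the degree of every morphism `x` from a smooth
projective curve, of genus `g`, with image not contained in `G = 0`, is at most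
`B max (2 g - 2 + s, 0)`, where `s` is the number of points mapped to the divisor. -/
def DegC (p : Ideal (MvPolynomial (Fin (N + 1)) k)) (Q : MvPolynomial (Fin (N + 1)) k)
    (e : ℕ) : Prop :=
  ∃ (D : ℕ) (G : MvPolynomial (Fin (N + 1)) k), G.IsHomogeneous D ∧ G ∉ p ∧ Q ∣ G ∧
    ∃ B : ℕ, ∀ (L : Type) [Field L] [Algebra k L] [IsFF k L] (x : Fin (N + 1) → L),
      (∀ H ∈ p, aeval x H = 0) → aeval x G ≠ 0 →
      pht k x ≤ B * max (canDeg k L + (meets (k := k) Q e x).ncard) 0

/-- The conclusion of the Lang-Vojta conjecture for the affine variety `X`, the complement of the divisor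
given by the form `Q` of degree `e` in the projective variety with the homogeneous prime ideal `p`, with
`β(χ) = B max (χ, 0)`: there are a proper closed subset `G = 0` (which contains the divisor) and a
constant `B` such that every morphism `f` from a smooth affine curve `C` to `X` with image not contained
in `G = 0` has degree at most `B max (χ(C), 0)`, `χ(C) = 2 g - 2 + s`. Here `C` is given by its function
field `L` and the set `S` of its `s` places at infinity, and `f` by the homogeneous coordinates `x` over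
`L`. -/
def LangVojta (p : Ideal (MvPolynomial (Fin (N + 1)) k)) (Q : MvPolynomial (Fin (N + 1)) k)
    (e : ℕ) : Prop :=
  ∃ (D : ℕ) (G : MvPolynomial (Fin (N + 1)) k), G.IsHomogeneous D ∧ G ∉ p ∧ Q ∣ G ∧
    ∃ B : ℕ, ∀ (L : Type) [Field L] [Algebra k L] [IsFF k L] (S : Finset (Place k L))
      (x : Fin (N + 1) → L), (∀ H ∈ p, aeval x H = 0) →
      (∀ P ∉ S, P ∉ meets (k := k) Q e x) → aeval x G ≠ 0 →
      pht k x ≤ B * max (canDeg k L + S.card) 0

theorem DegC.langVojta {p : Ideal (MvPolynomial (Fin (N + 1)) k)}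
    {Q : MvPolynomial (Fin (N + 1)) k} {e : ℕ} (h : DegC p Q e) : LangVojta p Q e := by
  obtain ⟨D, G, h1, h2, h3, B, h4⟩ := h
  refine ⟨D, G, h1, h2, h3, B, fun L _ _ _ S x hx hS hG => ?_⟩
  refine (h4 L x hx hG).trans (mul_le_mul_of_nonneg_left ?_ (by positivity))
  have h5 : (meets (k := k) Q e x).ncard ≤ S.card := by
    rw [← Set.ncard_coe_finset]
    exact Set.ncard_le_ncard (fun P hP => by
      by_contra hcon
      exact hS P hcon hP) (Finset.finite_toSet S)
  have h6 : ((meets (k := k) Q e x).ncard : ℤ) ≤ S.card := by exact_mod_cast h5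
  exact max_le_max (by linarith) le_rfl

/-- No point lies on more than `b` of the hyperplanes. -/
def Few (b : ℕ) {q : ℕ} (ℓ : Fin q → Fin (n + 1) → k) : Prop :=
  ∀ (s : Finset (Fin q)) (c : Fin (n + 1) → k), c ≠ 0 → (∀ i ∈ s, ∑ j, ℓ i j * c j = 0) →
    s.card ≤ b

section

variable {L : Type} [Field L] [Algebra k L]

theorem aeval_img (φ : Fin (n + 1) → MvPolynomial (Fin (N + 1)) k) (x : Fin (N + 1) → L)
    (Δ : MvPolynomial (Fin (n + 1)) k) :
    aeval (img φ x) Δ = aeval x (aeval φ Δ) := by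
  have h : ((aeval x : MvPolynomial (Fin (N + 1)) k →ₐ[k] L).comp
      (aeval φ : MvPolynomial (Fin (n + 1)) k →ₐ[k] MvPolynomial (Fin (N + 1)) k)) =
      (aeval (img φ x) : MvPolynomial (Fin (n + 1)) k →ₐ[k] L) := by
    apply MvPolynomial.algHom_ext
    intro j
    simp [img]
  exact (DFunLike.congr_fun h Δ).symm

theorem aeval_forms_hom {φ : Fin (n + 1) → MvPolynomial (Fin (N + 1)) k} {δ : ℕ}
    (hφ : ∀ j, (φ j).IsHomogeneous δ) {Δ : MvPolynomial (Fin (n + 1)) k} {m : ℕ}
    (hΔ : Δ.IsHomogeneous m) : (aeval φ Δ).IsHomogeneous (m * δ) := by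
  rw [aeval_def, eval₂_eq']
  refine IsHomogeneous.sum _ _ _ fun d hd => ?_
  have h1 := hΔ (mem_support_iff.1 hd)
  have h2 := IsHomogeneous.prod Finset.univ (fun j => φ j ^ d j) (fun j => d j * δ) fun j _ => by
    rw [mul_comm]
    exact (hφ j).pow (d j)
  have h3 : ∑ j, d j * δ = m * δ := by
    rw [← Finset.sum_mul, ← h1, Finsupp.weight_apply, Finsupp.sum_fintype]
    · simp
    · simp
  rw [h3] at h2
  have h4 := (isHomogeneous_C (Fin (N + 1)) (coeff d Δ)).mul h2
  rw [zero_add] at h4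
  exact h4

end

variable [IsAlgClosed k] [CharZero k]

/-- At a place, at most `b` of the hyperplanes are met. -/
theorem few_pt {b q : ℕ} {ℓ : Fin q → Fin (n + 1) → k} (hℓ : Few b ℓ) {L : Type} [Field L]
    [Algebra k L] [IsFF k L] (P : Place k L) {f : Fin (n + 1) → L} (hf : ∃ j, f j ≠ 0)
    (hne : ∀ i, ∑ j, algebraMap k L (ℓ i j) * f j ≠ 0) (s : Finset (Fin q))
    (hs' : ∀ i ∈ s, pord P f < P.ord (∑ j, algebraMap k L (ℓ i j) * f j)) :
    s.card ≤ b := by
  classical
  set π := unif P with hπd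
  have hπ : P.ord π = 1 := ord_unif P
  have hπ0 : π ≠ 0 := by
    intro h
    rw [h, P.ord_zero] at hπ; omega
  set m := pord P f with hm
  set t := π ^ m with ht
  have ht0 : t ≠ 0 := zpow_ne_zero _ hπ0
  have hto : P.ord t = m := by rw [ht, P.ord_zpow, hπ, mul_one]
  set g : Fin (n + 1) → L := fun j => t⁻¹ * f j with hg
  have hfg : ∀ j, f j = t * g j := by
    intro j
    rw [hg]
    simp only
    rw [mul_inv_cancel_left₀ ht0]
  have hg0 : ∀ j, Ge P 0 (g j) := by
    intro j
    apply Ge.of_mul' (h := t) (m := m) ht0 hto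
    rw [zero_add, ← hfg]
    exact ge_pord P f j
  choose c hc using fun j => exists_const P (hg0 j)
  have hc0 : c ≠ 0 := by
    intro h0
    obtain ⟨j, hj, hjo⟩ := exists_pord P hf
    have h1 := hc j
    rw [h0, Pi.zero_apply, map_zero, sub_zero] at h1
    have hgj : g j ≠ 0 := mul_ne_zero (inv_ne_zero ht0) hj
    have h2 := h1.resolve_left hgj
    have h3 : P.ord (f j) = m + P.ord (g j) := by
      rw [hfg j, P.ord_mul ht0 hgj, hto]
    omega
  refine hℓ s c hc0 fun i hi => ?_
  have e1 : ∑ j, algebraMap k L (ℓ i j) * f j = t * ∑ j, algebraMap k L (ℓ i j) * g j := by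
    rw [Finset.mul_sum]
    refine Finset.sum_congr rfl fun j _ => ?_
    rw [hfg j]
    ring
  have hgi : ∑ j, algebraMap k L (ℓ i j) * g j ≠ 0 := by
    intro h0
    apply hne i
    rw [e1, h0, mul_zero]
  have h1 : Ge P 1 (∑ j, algebraMap k L (ℓ i j) * g j) := by
    right
    have h2 := hs' i hi
    rw [e1, P.ord_mul ht0 hgi, hto] at h2
    omega
  have h2 : Ge P 1 (∑ j, algebraMap k L (ℓ i j) * g j - algebraMap k L (∑ j, ℓ i j * c j)) := by
    rw [map_sum, ← Finset.sum_sub_distrib]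
    refine Ge.sum _ _ fun j _ => ?_
    rw [map_mul, ← mul_sub]
    simpa using (Ge.const (P := P) (ℓ i j)).mul (hc j)
  apply const_zero P
  have h3 := h1.sub h2
  rwa [sub_sub_cancel] at h3

/-- At a place, at most `b` of the hyperplanes are met. -/
theorem few_place {b q : ℕ} {ℓ : Fin q → Fin (n + 1) → k} (hℓ : Few b ℓ) {L : Type} [Field L]
    [Algebra k L] [IsFF k L] (P : Place k L) {φ : Fin (n + 1) → MvPolynomial (Fin (N + 1)) k}
    {x : Fin (N + 1) → L} (hne : ∀ i, aeval x (lform φ (ℓ i)) ≠ 0)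
    (hf : ∃ j, img φ x j ≠ 0) (s : Finset (Fin q)) (hs : ∀ i ∈ s, 0 < cont P φ (ℓ i) x) :
    s.card ≤ b := by
  classical
  have hlv : ∀ i, aeval x (lform φ (ℓ i)) = ∑ j, algebraMap k L (ℓ i j) * img φ x j := by
    intro i
    unfold lform img
    rw [map_sum]
    refine Finset.sum_congr rfl fun j _ => ?_
    rw [map_mul, aeval_C]
    rfl
  refine few_pt hℓ P hf (fun i => by rw [← hlv]; exact hne i) s fun i hi => ?_
  have h1 := hs i hi
  unfold cont at h1
  rw [hlv] at h1
  omega

/-- The sum of the numbers of the hyperplanes which are met. -/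
theorem sum_meets {b q : ℕ} {ℓ : Fin q → Fin (n + 1) → k} (hℓ : Few b ℓ) {L : Type} [Field L]
    [Algebra k L] [IsFF k L] {φ : Fin (n + 1) → MvPolynomial (Fin (N + 1)) k}
    {x : Fin (N + 1) → L} (hne : ∀ i, aeval x (lform φ (ℓ i)) ≠ 0)
    (hf : ∃ j, img φ x j ≠ 0) (M : Finset (Place k L)) (s : Place k L → Finset (Fin q))
    (hs : ∀ P, ∀ i ∈ s P, 0 < cont P φ (ℓ i) x) :
    ∑ P ∈ M, ((s P).card : ℝ) ≤ (b : ℝ) * M.card := by
  have h1 : ∀ P ∈ M, ((s P).card : ℝ) ≤ b := by
    intro P _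
    exact_mod_cast few_place hℓ P hne hf (s P) (hs P)
  refine (Finset.sum_le_sum h1).trans ?_
  rw [Finset.sum_const, nsmul_eq_mul, mul_comm]

omit [IsAlgClosed k] [CharZero k] in
theorem hgt_const (L : Type) [Field L] [Algebra k L] [IsFF k L] (c : k) :
    hgt k (algebraMap k L c) = 0 := by
  unfold hgt
  have h : (fun P : Place k L => max (-P.ord (algebraMap k L c)) 0) = fun _ => 0 := by
    funext P
    by_cases hc : c = 0
    · rw [hc, map_zero, P.ord_zero]; simp
    · rw [P.ord_const hc]; simp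
  rw [h, finsum_zero]

/-- The affine form of the degree bound. -/
theorem affine_const {q : ℕ} {ℓ : Fin q → Fin (n + 1) → k}
    {w : Fin q → ℝ} {b : ℕ} (hb1 : 1 ≤ b) (hq : 2 * (b : ℝ) < ∑ i, w i)
    {p : Ideal (MvPolynomial (Fin (N + 1)) k)} [p.IsPrime] (hx : ∃ j, X j ∉ p)
    {Q : MvPolynomial (Fin (N + 1)) k} {e : ℕ}
    {φ : Fin (n + 1) → MvPolynomial (Fin (N + 1)) k} {Δ : MvPolynomial (Fin (n + 1)) k}
    (hR : ImgC p Q e φ ℓ w b Δ) (hgen : GenFin p φ) :
    ∃ g : MvPolynomial (Fin (N + 1)) k, g ∉ p ∧ ∃ B : ℕ, ∀ (L : Type) [Field L] [Algebra k L]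
      [IsFF k L] (x : Fin (N + 1) → L),
      IsPt p x → aeval x Q ≠ 0 → (∀ i, aeval x (lform φ (ℓ i)) ≠ 0) → aeval (img φ x) Δ ≠ 0 →
        aeval x g ≠ 0 →
        pht k x ≤ B * max (canDeg k L + (meets (k := k) Q e x).ncard) 0 := by
  classical
  obtain ⟨l, hl⟩ := hx
  have hq0 : 1 ≤ q := by
    by_contra hcon
    have h0 : q = 0 := by omega
    subst h0
    rw [Finset.univ_eq_empty, Finset.sum_empty] at hq
    have : (0 : ℝ) ≤ (b : ℝ) := by positivity
    linarith
  set A := MvPolynomial (Fin (N + 1)) k ⧸ p with hA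
  set mk : MvPolynomial (Fin (N + 1)) k →+* A := Ideal.Quotient.mk p with hmk
  have hmk0 : ∀ H : MvPolynomial (Fin (N + 1)) k, mk H = 0 ↔ H ∈ p := fun H =>
    Ideal.Quotient.eq_zero_iff_mem
  set s : Fin (n + 1) × Fin (n + 1) → A := fun a => if φ a.2 ∈ p then 0 else mk (φ a.1) with hs
  set t' : Fin (n + 1) × Fin (n + 1) → A := fun a => if φ a.2 ∈ p then 1 else mk (φ a.2) with ht'
  have ht'0 : ∀ a, t' a ≠ 0 := by
    intro a
    simp only [ht']
    split_ifs with h
    · exact one_ne_zero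
    · exact fun h0 => h ((hmk0 _).1 h0)
  have hst : (fun a => algebraMap A (FractionRing A) (s a) / algebraMap A (FractionRing A) (t' a)) =
      fun a : Fin (n + 1) × Fin (n + 1) => algebraMap A (FractionRing A) (mk (φ a.1)) /
        algebraMap A (FractionRing A) (mk (φ a.2)) := by
    funext a
    simp only [hs, ht']
    split_ifs with h
    · rw [(hmk0 _).2 h, map_zero, map_one, div_one, div_zero]
    · rfl
  obtain ⟨g', hg', B0, E, hbound⟩ := alg_bound.{0, 0, 0, 0, 0, 0} (k := k) s t' ht'0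
    (fun j : Fin (N + 1) => mk (X j)) (fun _ => mk (X l)) (fun _ h0 => hl ((hmk0 _).1 h0)) (by
      intro j
      rw [hst]
      exact hgen j l)
  obtain ⟨g, rfl⟩ := Ideal.Quotient.mk_surjective g'
  have hgp : g ∉ p := fun h => hg' ((hmk0 _).2 h)
  -- the constants
  obtain ⟨K0, hK0⟩ : ∃ K0 : ℕ, 1 ≤ (K0 : ℝ) * (∑ i, w i - 2 * (b : ℝ)) := by
    have hc : 0 < ∑ i, w i - 2 * (b : ℝ) := by linarith
    obtain ⟨K0, hK0⟩ := exists_nat_ge (1 / (∑ i, w i - 2 * (b : ℝ)))
    refine ⟨K0, ?_⟩
    rwa [div_le_iff₀ hc] at hK0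
  refine ⟨g * X l, ?_, (N + 1) * B0 * (K0 * b), ?_⟩
  · intro h
    rcases Ideal.IsPrime.mem_or_mem inferInstance h with h | h
    · exact hgp h
    · exact hl h
  intro L _ _ _ x hxp hxQ hxℓ hxΔ hxg
  rw [map_mul, aeval_X] at hxg
  have hxl : x l ≠ 0 := right_ne_zero_of_mul hxg
  have hxg' := left_ne_zero_of_mul hxg
  have h1 := hR L x hxp hxQ hxℓ hxΔ
  -- the homomorphism
  set θ : A →ₐ[k] L := Ideal.Quotient.liftₐ p (aeval x) hxp.2 with hθ
  have hθmk : ∀ H, θ (mk H) = aeval x H := fun H => rfl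
  set M : ℤ := max (canDeg k L + (meets (k := k) Q e x).ncard) 0 with hM
  have hM0 : 0 ≤ M := le_max_right _ _
  have hx0 : ∃ j, x j ≠ 0 := ⟨l, hxl⟩
  -- the bound for the height of the image
  set Y : ℤ := K0 * (b * M) with hY
  have hY0 : 0 ≤ Y := by
    rw [hY]
    positivity
  have hf0 : ∃ j, img φ x j ≠ 0 := by
    by_contra hcon
    push Not at hcon
    apply hxℓ ⟨0, hq0⟩
    unfold lform
    rw [map_sum]
    refine Finset.sum_eq_zero fun j _ => ?_
    have h2 : aeval x (φ j) = 0 := hcon j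
    rw [map_mul, h2, mul_zero]
  have hpos := pht_nonneg (k := k) hf0
  have hYb : pht k (img φ x) ≤ Y := by
    have h5 : (pht k (img φ x) : ℝ) ≤ (K0 : ℝ) * ((∑ i, w i - 2 * (b : ℝ)) *
        (pht k (img φ x) : ℝ)) := by
      have h6 : (0 : ℝ) ≤ (pht k (img φ x) : ℝ) := by exact_mod_cast hpos
      calc (pht k (img φ x) : ℝ) = 1 * (pht k (img φ x) : ℝ) := (one_mul _).symm
        _ ≤ ((K0 : ℝ) * (∑ i, w i - 2 * (b : ℝ))) * (pht k (img φ x) : ℝ) :=
            mul_le_mul_of_nonneg_right hK0 h6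
        _ = _ := by ring
    have h9 : (pht k (img φ x) : ℝ) ≤ (Y : ℝ) := by
      refine (h5.trans (mul_le_mul_of_nonneg_left h1 (by positivity))).trans ?_
      rw [hY]
      push_cast
      exact le_rfl
    exact_mod_cast h9
  -- the heights of the coordinates
  have h2 : θ (mk g) ≠ 0 := by rw [hθmk]; exact hxg'
  have h3 := hbound L θ h2 Y hY0 (by
    intro a
    simp only [hs, ht']
    split_ifs with h
    · rw [map_zero, zero_div, hgt_zero]; exact hY0
    · rw [hθmk, hθmk]
      by_cases h4 : aeval x (φ a.2) = 0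
      · rw [h4, div_zero, hgt_zero]; exact hY0
      · exact (ratio_le (k := k) (f := img φ x) h4 a.1).trans hYb)
  have h4 : ∑ c ∈ E, hgt k (algebraMap k L c) = 0 :=
    Finset.sum_eq_zero fun c _ => hgt_const L c
  have h5 : pht k x ≤ ∑ j : Fin (N + 1), (B0 * Y) := by
    refine (pht_le (k := k) x hxl).trans (Finset.sum_le_sum fun j _ => ?_)
    have h6 := (h3 j).2
    rw [hθmk, hθmk, aeval_X, aeval_X, h4, mul_zero, add_zero] at h6
    exact h6
  rw [Finset.sum_const, Finset.card_univ, Fintype.card_fin, nsmul_eq_mul] at h5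
  refine h5.trans ?_
  rw [hY]
  push_cast
  refine le_of_eq ?_
  ring

/-- The degree bound, from an inequality for the image points outside a hypersurface. -/
theorem deg_of_img {q : ℕ} {ℓ : Fin q → Fin (n + 1) → k}
    {w : Fin q → ℝ} {b : ℕ} (hb1 : 1 ≤ b) (hq : 2 * (b : ℝ) < ∑ i, w i)
    {p : Ideal (MvPolynomial (Fin (N + 1)) k)} [p.IsPrime]
    {Q : MvPolynomial (Fin (N + 1)) k} {e : ℕ}
    {φ : Fin (n + 1) → MvPolynomial (Fin (N + 1)) k} (hA : Admissible p Q e φ ℓ)
    {Δ : MvPolynomial (Fin (n + 1)) k} {m : ℕ} (hΔ : Δ.IsHomogeneous m) (hΔp : aeval φ Δ ∉ p)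
    (hR : ImgC p Q e φ ℓ w b Δ) : DegC p Q e := by
  obtain ⟨hp, hx, hQ, hQp, ⟨δ, hφ⟩, hℓp, hgen⟩ := hA
  obtain ⟨g, hg, B, h⟩ := affine_const hb1 hq hx hR hgen
  obtain ⟨l, hl⟩ := hx
  obtain ⟨r, hr⟩ := exists_component hp hg
  refine ⟨r + e + 1 + q * δ + m * δ,
    homogeneousComponent r g * Q * X l * (∏ i, lform φ (ℓ i)) * aeval φ Δ, ?_, ?_,
    (((Dvd.intro_left _ rfl).mul_right _).mul_right _).mul_right _, B, ?_⟩
  · refine ((((homogeneousComponent_isHomogeneous r g).mul hQ).mul (isHomogeneous_X _ _)).mul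
      ?_).mul (aeval_forms_hom hφ hΔ)
    have h1 := IsHomogeneous.prod Finset.univ (fun i => lform φ (ℓ i)) (fun _ => δ)
      fun i _ => lform_hom hφ (ℓ i)
    simpa using h1
  · intro h
    rcases Ideal.IsPrime.mem_or_mem inferInstance h with h | h
    · rcases Ideal.IsPrime.mem_or_mem inferInstance h with h | h
      · rcases Ideal.IsPrime.mem_or_mem inferInstance h with h | h
        · rcases Ideal.IsPrime.mem_or_mem inferInstance h with h | h
          · exact hr h
          · exact hQp h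
        · exact hl h
      · obtain ⟨i, _, hi⟩ := (Ideal.IsPrime.prod_mem_iff (hp := inferInstance)).1 h
        exact hℓp i hi
    · exact hΔp h
  · intro L _ _ _ x hxp hxG
    rw [map_mul, map_mul, map_mul, map_mul, aeval_X, map_prod] at hxG
    have hxΔ := right_ne_zero_of_mul hxG
    have hxG := left_ne_zero_of_mul hxG
    have hxℓ : ∀ i, aeval x (lform φ (ℓ i)) ≠ 0 := fun i =>
      Finset.prod_ne_zero_iff.1 (right_ne_zero_of_mul hxG) i (Finset.mem_univ i)
    have hxG' := left_ne_zero_of_mul hxG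
    have hxl : x l ≠ 0 := right_ne_zero_of_mul hxG'
    have hxQ : aeval x Q ≠ 0 := right_ne_zero_of_mul (left_ne_zero_of_mul hxG')
    have hxg := left_ne_zero_of_mul (left_ne_zero_of_mul hxG')
    have hinf : Infinite L := by
      have : CharZero L := charZero_of_injective_algebraMap (algebraMap k L).injective
      infer_instance
    obtain ⟨c, hc, hcG⟩ := exists_scale g x r hxg
    have h1 := h L (fun j => c * x j) ⟨fun h0 => ?_, fun H hH => ?_⟩ ?_ (fun i => ?_) ?_ hcG
    · rwa [pht_scale ⟨l, hxl⟩ hc, meets_scale hQ ⟨l, hxl⟩ hxQ hc] at h1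
    · exact mul_ne_zero hc hxl (congrFun h0 l)
    · rw [aeval_scale_sum]
      refine Finset.sum_eq_zero fun e' _ => ?_
      rw [hxp _ (hp H hH e'), mul_zero]
    · rw [aeval_scale hQ]
      exact mul_ne_zero (pow_ne_zero _ hc) hxQ
    · rw [aeval_scale (lform_hom hφ (ℓ i))]
      exact mul_ne_zero (pow_ne_zero _ hc) (hxℓ i)
    · rw [aeval_img, aeval_scale (aeval_forms_hom hφ hΔ)]
      exact mul_ne_zero (pow_ne_zero _ hc) hxΔ

end Pool.Agent.Q80.HC
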