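import Pool.Agent.Y216.Gen
import Pool.Agent.Y216.RncD

/-!
Projective varieties with a generically finite map to a projective space which is ramified over
hyperplanes: general type and pseudo-geometric hyperbolicity.
-/

set_option autoImplicit false

namespace Pool.Agent.Q80.HC

open FF MvPolynomial Pool.Agent.W603.LV Pool.Agent.W603.PV Pool.Agent.Y216
open Pool.Agent.W602.GT Pool.Agent.W602.RG

variable {k : Type} [Field k] {N n q : ℕ}

/-- The projective variety `V` has the generic point `y`, with coordinates in `K`, and the forms `φ`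
define a map from `V` to projective `n`-space. The map is ramified to order at least `m i` over the
hyperplanes `a i`: for every point `f` of `V` with coordinates in a field `M` over `k` (for example the
function field of a curve, or `K`), whose image is in none of the hyperplanes, and for every discrete
valuation `P` of `M` which is trivial on `k`, the intersection multiplicity at `P` of the image of `f`
with the `i`-th hyperplane is either `0` or at least `m i`. -/
def RamV (k : Type) [Field k] {K : Type} [Field K] [Algebra k K] (y : Fin (N + 1) → K)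
    (φ : Fin (n + 1) → MvPolynomial (Fin (N + 1)) k) (a : Fin q → Fin (n + 1) → k)
    (m : Fin q → ℕ) : Prop :=
  ∀ (M : Type) [Field M] [Algebra k M] (f : Fin (N + 1) → M), OnVar k y f →
    (∀ i, ∑ j, algebraMap k M (a i j) * aeval f (φ j) ≠ 0) → ∀ (P : Place k M) (i : Fin q),
    pord P (fun j => aeval f (φ j)) < P.ord (∑ j, algebraMap k M (a i j) * aeval f (φ j)) →
      pord P (fun j => aeval f (φ j)) + m i ≤
        P.ord (∑ j, algebraMap k M (a i j) * aeval f (φ j))

/-- The map given by the forms `φ` is generically finite onto its image: all rational functions are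
algebraic over the ratios of the coordinates of the image. -/
def GenFinV (k : Type) [Field k] {K : Type} [Field K] [Algebra k K] (y : Fin (N + 1) → K)
    (φ : Fin (n + 1) → MvPolynomial (Fin (N + 1)) k) : Prop :=
  ∃ l, aeval y (φ l) ≠ 0 ∧ ∀ η : K, IsAlgebraic (IntermediateField.adjoin k
    (Set.range fun j => aeval y (φ j) / aeval y (φ l))) η

theorem pord_perm {L : Type} [Field L] [Algebra k L] (P : Place k L) (f : Fin (n + 1) → L)
    (e : Equiv.Perm (Fin (n + 1))) : pord P (fun j => f (e j)) = pord P f := by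
  unfold pord
  exact Equiv.iInf_congr (e.subtypeEquiv fun j => Iff.rfl) fun j => rfl

variable [IsAlgClosed k] [CharZero k]

/-- The degree bound for the curves. -/
theorem curveBound_cover {a : Fin q → Fin (n + 1) → k} {m : Fin q → ℕ}
    {Δ : MvPolynomial (Fin (n + 1)) k} {B : ℕ} (hB : CurveIneq a m Δ B) {K : Type} [Field K]
    [Algebra k K] {y : Fin (N + 1) → K} (hy : y ≠ 0) (hgen : coords k y = ⊤)
    {φ : Fin (n + 1) → MvPolynomial (Fin (N + 1)) k} (hfin : GenFinV k y φ)
    (hne : ∀ i, ∑ j, algebraMap k K (a i j) * aeval y (φ j) ≠ 0)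
    (hΔ : aeval (fun j => aeval y (φ j)) Δ ≠ 0) (hR : RamV k y φ a m) : CurveBound k y := by
  classical
  obtain ⟨l, hl, halg⟩ := hfin
  obtain ⟨j0, hj0⟩ := Function.ne_iff.1 hy
  have hj0 : y j0 ≠ 0 := hj0
  let e : Equiv.Perm (Fin (n + 1)) := Equiv.swap 0 l
  let ι : Type := Fin (n + 1) ⊕ (Fin (N + 1) ⊕ (Unit ⊕ (Unit ⊕ (Fin q ⊕ Unit))))
  let T : ι → K := Sum.elim (fun j => aeval y (φ j)) (Sum.elim y
    (Sum.elim (fun _ => (y j0)⁻¹) (Sum.elim (fun _ => (aeval (fun j => aeval y (φ j)) Δ)⁻¹)
      (Sum.elim (fun i => (∑ j, algebraMap k K (a i j) * aeval y (φ j))⁻¹)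
        fun _ => (aeval y (φ l))⁻¹))))
  have he0 : e 0 = l := Equiv.swap_apply_left _ _
  have hrange : (Set.range fun j => T (Sum.inl (e j)) / T (Sum.inl (e 0))) =
      Set.range fun j => aeval y (φ j) / aeval y (φ l) := by
    ext z
    constructor
    · rintro ⟨j, rfl⟩
      exact ⟨e j, by rw [he0]; rfl⟩
    · rintro ⟨j, rfl⟩
      refine ⟨e.symm j, ?_⟩
      simp only [Equiv.apply_symm_apply]
      rw [he0]
      rfl
  refine curveBound_of hy hgen T (fun j => Sum.inl (e j)) (by rw [he0]; exact hl) (fun η => ?_) B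
    fun L _ _ _ τ hτ => ?_
  · rw [hrange]
    exact halg η
  · obtain ⟨g, hg⟩ : ∃ g : Fin (N + 1) → L, g = fun j => τ (Sum.inr (Sum.inl j)) := ⟨_, rfl⟩
    have hyp : ∀ F : MvPolynomial (Fin (N + 1)) k,
        aeval T (rename (fun j => (Sum.inr (Sum.inl j) : ι)) F) = aeval y F := by
      intro F
      rw [aeval_rename]
      rfl
    have hgp : ∀ F : MvPolynomial (Fin (N + 1)) k,
        aeval τ (rename (fun j => (Sum.inr (Sum.inl j) : ι)) F) = aeval g F := by
      intro F
      rw [aeval_rename, hg]
      rfl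
    -- the point of the variety
    have hrel : ∀ F : MvPolynomial (Fin (N + 1)) k, aeval y F = 0 → aeval g F = 0 := by
      intro F hF
      rw [← hgp]
      exact hτ _ (by rw [hyp, hF])
    have hgj : g j0 ≠ 0 := by
      have h1 := hτ (X (Sum.inr (Sum.inl j0)) * X (Sum.inr (Sum.inr (Sum.inl ()))) - 1) (by
        rw [map_sub, map_mul, aeval_X, aeval_X, map_one]
        change y j0 * (y j0)⁻¹ - 1 = 0
        rw [mul_inv_cancel₀ hj0, sub_self])
      rw [map_sub, map_mul, aeval_X, aeval_X, map_one] at h1
      rw [hg]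
      exact left_ne_zero_of_mul_eq_one (sub_eq_zero.1 h1)
    have hon : OnVar k y g := ⟨⟨j0, hgj⟩, fun H _ hH => hrel H hH⟩
    have hφ : ∀ j, τ (Sum.inl j) = aeval g (φ j) := by
      intro j
      have h1 := hτ (X (Sum.inl j) - rename (fun j => (Sum.inr (Sum.inl j) : ι)) (φ j)) (by
        rw [map_sub, hyp, aeval_X]
        exact sub_self _)
      rw [map_sub, hgp, aeval_X] at h1
      exact sub_eq_zero.1 h1
    -- the polynomials in the coordinates of the image
    have hcp : ∀ F : MvPolynomial (Fin (n + 1)) k, aeval T (rename Sum.inl F) =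
        aeval (fun j => aeval y (φ j)) F := by
      intro F
      rw [aeval_rename]
      rfl
    have hfp : ∀ F : MvPolynomial (Fin (n + 1)) k, aeval τ (rename Sum.inl F) =
        aeval (fun j => aeval g (φ j)) F := by
      intro F
      rw [aeval_rename]
      congr 1
      congr 1
      funext j
      exact hφ j
    have hlp : ∀ {M : Type} [Field M] [Algebra k M] (b : Fin (n + 1) → k) (x : Fin (n + 1) → M),
        aeval x (∑ j, C (b j) * X j : MvPolynomial (Fin (n + 1)) k) =
          ∑ j, algebraMap k M (b j) * x j := by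
      intro M _ _ b x
      rw [map_sum]
      exact Finset.sum_congr rfl fun j _ => by rw [map_mul, aeval_C, aeval_X]
    have hfΔ : aeval (fun j => aeval g (φ j)) Δ ≠ 0 := by
      have h1 := hτ (rename Sum.inl Δ * X (Sum.inr (Sum.inr (Sum.inr (Sum.inl ())))) - 1) (by
        rw [map_sub, map_mul, hcp, aeval_X, map_one]
        change aeval (fun j => aeval y (φ j)) Δ * (aeval (fun j => aeval y (φ j)) Δ)⁻¹ - 1 = 0
        rw [mul_inv_cancel₀ hΔ, sub_self])
      rw [map_sub, map_mul, hfp, aeval_X, map_one] at h1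
      exact left_ne_zero_of_mul_eq_one (sub_eq_zero.1 h1)
    have hfl : ∀ i, ∑ j, algebraMap k L (a i j) * aeval g (φ j) ≠ 0 := by
      intro i
      have h1 := hτ (rename Sum.inl (∑ j, C (a i j) * X j) *
        X (Sum.inr (Sum.inr (Sum.inr (Sum.inr (Sum.inl i))))) - 1) (by
        rw [map_sub, map_mul, hcp, hlp, aeval_X, map_one]
        change (∑ j, algebraMap k K (a i j) * aeval y (φ j)) *
          (∑ j, algebraMap k K (a i j) * aeval y (φ j))⁻¹ - 1 = 0
        rw [mul_inv_cancel₀ (hne i), sub_self])
      rw [map_sub, map_mul, hfp, hlp, aeval_X, map_one] at h1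
      exact left_ne_zero_of_mul_eq_one (sub_eq_zero.1 h1)
    have hpht : pht k (fun j => τ (Sum.inl (e j))) = pht k (fun j => aeval g (φ j)) := by
      unfold pht
      congr 1
      refine finsum_congr fun P => ?_
      have h1 : (fun j => τ (Sum.inl (e j))) = fun j => (fun j => aeval g (φ j)) (e j) := by
        funext j
        exact hφ (e j)
      rw [h1]
      exact pord_perm P (fun j => aeval g (φ j)) e
    rw [hpht]
    have hfne : ∃ j, (fun j => aeval g (φ j)) j ≠ 0 := by
      refine ⟨l, ?_⟩
      have h1 := hτ (X (Sum.inl l) * X (Sum.inr (Sum.inr (Sum.inr (Sum.inr (Sum.inr ()))))) - 1) (by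
        rw [map_sub, map_mul, aeval_X, aeval_X, map_one]
        change aeval y (φ l) * (aeval y (φ l))⁻¹ - 1 = 0
        rw [mul_inv_cancel₀ hl, sub_self])
      rw [map_sub, map_mul, aeval_X, aeval_X, map_one] at h1
      have h2 := left_ne_zero_of_mul_eq_one (sub_eq_zero.1 h1)
      rwa [hφ] at h2
    exact hB L (fun j => aeval g (φ j)) hfne hfl hfΔ fun P i hi => hR L g hon hfl P i hi

/-- The dominant case. -/
theorem dominant_cover {a : Fin q → Fin (n + 1) → k} (ha : GenPos a) {m : Fin q → ℕ}
    (hm : ∀ i, 1 ≤ m i) (hsum : (n : ℝ) + 1 < ∑ i, (1 - 1 / (m i : ℝ)))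
    {Δ : MvPolynomial (Fin (n + 1)) k} (hΔ : Δ ≠ 0) {d : ℕ} (hd : Δ.IsHomogeneous d) {B : ℕ}
    (hB : CurveIneq a m Δ B) {K : Type} [Field K] [Algebra k K] {y : Fin (N + 1) → K}
    (hy : y ≠ 0) (hgen : coords k y = ⊤) (htr : Algebra.trdeg k K = n)
    {φ : Fin (n + 1) → MvPolynomial (Fin (N + 1)) k} (hc0 : aeval y (φ 0) ≠ 0)
    (hc : AlgebraicIndependent k (fun j : Fin n => aeval y (φ j.succ) / aeval y (φ 0)))
    (hR : RamV k y φ a m) : GeneralType k K n ∧ CurveBound k y := by
  classical
  -- the number of hyperplanes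
  have hq : n + 1 < q := by
    have h1 : ∑ i, (1 - 1 / (m i : ℝ)) ≤ ∑ i : Fin q, (1 : ℝ) :=
      Finset.sum_le_sum fun i _ => by
        have : (0 : ℝ) ≤ 1 / (m i : ℝ) := by positivity
        linarith
    rw [Finset.sum_const, Finset.card_univ, Fintype.card_fin, nsmul_eq_mul, mul_one] at h1
    have h2 : ((n + 1 : ℕ) : ℝ) < (q : ℝ) := by
      push_cast
      linarith
    exact_mod_cast h2
  have hane : ∀ i, a i ≠ 0 := by
    intro i
    obtain ⟨s, hs, hsi⟩ : ∃ s : Fin (n + 1) → Fin q, Function.Injective s ∧ s 0 = i := by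
      let e : Fin (n + 1) → Fin q := fun l => ⟨l, by omega⟩
      have he : Function.Injective e := fun x y h => by
        have := congrArg Fin.val h
        exact Fin.ext this
      refine ⟨Equiv.swap (e 0) i ∘ e, (Equiv.injective _).comp he, ?_⟩
      simp
    have := (ha s hs).ne_zero 0
    simpa [hsi] using this
  obtain ⟨c, hcd⟩ : ∃ c : Fin (n + 1) → K, c = fun j => aeval y (φ j) := ⟨_, rfl⟩
  have hc0' : c 0 ≠ 0 := by rw [hcd]; exact hc0
  have hc' : AlgebraicIndependent k (fun j : Fin n => c j.succ / c 0) := by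
    rw [hcd]; exact hc
  have hlne : ∀ i, lv (a i) c ≠ 0 := fun i => lv_form_ne hc0' hc' (hane i)
  have hbasis : IsTranscendenceBasis k (fun j : Fin n => c j.succ / c 0) := by
    refine hc'.isTranscendenceBasis_of_lift_trdeg_le_of_finite ?_
    rw [htr]
    simp
  have hΔc := aeval_form_ne hc0' hc' hΔ hd
  have hlne' : ∀ i, ∑ j, algebraMap k K (a i j) * aeval y (φ j) ≠ 0 := by
    intro i
    have h1 := hlne i
    rw [hcd] at h1
    exact h1
  have hon : OnVar k y y := by
    obtain ⟨j0, hj0⟩ := Function.ne_iff.1 hy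
    exact ⟨⟨j0, hj0⟩, fun H _ hH => hH⟩
  refine ⟨gt_main ha hm hsum htr hc0' hbasis fun P _ i hi => ?_, ?_⟩
  · have h1 := hR K y hon hlne' P i
    rw [hcd] at hi ⊢
    exact h1 hi
  · refine curveBound_cover hB hy hgen ⟨0, hc0, fun η => ?_⟩ hlne' ?_ hR
    · have h1 := hbasis.isAlgebraic_field
      have h2 : IntermediateField.adjoin k (Set.range fun j : Fin n => c j.succ / c 0) ≤
          IntermediateField.adjoin k
            (Set.range fun j : Fin (n + 1) => aeval y (φ j) / aeval y (φ 0)) := by
        apply IntermediateField.adjoin.mono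
        rintro _ ⟨j, rfl⟩
        refine ⟨j.succ, ?_⟩
        rw [hcd]
      have h3 : IsAlgebraic (IntermediateField.adjoin k
          (Set.range fun j : Fin n => c j.succ / c 0)) η := h1.isAlgebraic η
      letI := (IntermediateField.inclusion h2).toAlgebra
      haveI : IsScalarTower (IntermediateField.adjoin k
          (Set.range fun j : Fin n => c j.succ / c 0))
          (IntermediateField.adjoin k
            (Set.range fun j : Fin (n + 1) => aeval y (φ j) / aeval y (φ 0))) K :=
        IsScalarTower.of_algebraMap_eq fun _ => rfl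
      exact h3.tower_top _
    · rw [hcd] at hΔc
      exact hΔc

end Pool.Agent.Q80.HC
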